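import Mathlib
import Pool.Agent.Helper40.CX.H51VK.Nod
import Pool.Agent.Helper40.CX.H51EW.Odd2
import Pool.Agent.Helper40.CX.H51VN.Fun
import Pool.Agent.Helper40.CX.H83EW.Red
import Pool.Agent.Helper40.CX.Good2

namespace CX

/-!
# Coordinates adapted to an elliptic surface

The surface is `y ^ 2 = x ^ 3 - 3 a (T) x - 2 b (T)` over the points `e0 + T e1` of the projective
line, and the fibre over `e1` is singular. Definitions only; the proofs are in `Pnt.lean` and
`ExC.lean`.
-/

set_option linter.unusedSectionVars false

namespace Pool.Agent.Helper83.VN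

open VC VF Function
open Pool.Agent.Helper51.EW Pool.Agent.Helper51.VN

universe u

/-- Coordinates on the projective line adapted to the surface. -/
structure Cor {k : Type u} [Field k] (W : Wei k) where
  e0 : Fin 2 → k
  e1 : Fin 2 → k
  det : e0 0 * e1 1 - e0 1 * e1 0 ≠ 0
  /-- `-3 a` is the coefficient of `x` -/
  al : Polynomial k
  /-- `-2 b` is the constant coefficient -/
  be : Polynomial k
  hA : ∀ (K : Type u) [Field K] [Algebra k K] (T : K),
    MvPolynomial.aeval (fun i => algebraMap k K (e0 i) + T * algebraMap k K (e1 i)) W.A =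
      -3 * Polynomial.aeval T al
  hB : ∀ (K : Type u) [Field K] [Algebra k K] (T : K),
    MvPolynomial.aeval (fun i => algebraMap k K (e0 i) + T * algebraMap k K (e1 i)) W.B =
      -2 * Polynomial.aeval T be
  hD : be ^ 2 - al ^ 3 ≠ 0
  dal : al.natDegree ≤ 4 * W.N
  dbe : be.natDegree ≤ 6 * W.N
  sing : 4 * MvPolynomial.aeval e1 W.A ^ 3 + 27 * MvPolynomial.aeval e1 W.B ^ 2 = 0

section defs

variable {k : Type u} [Field k] {W : Wei k} (D : Cor W) {K : Type u} [Field K] [Algebra k K]

/-- The point `e0 + T e1` of the projective line. -/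
def Cor.base (T : K) : Fin 2 → K := fun i => algebraMap k K (D.e0 i) + T * algebraMap k K (D.e1 i)

/-- `a (T)` -/
noncomputable def Cor.a (T : K) : K := Polynomial.aeval T D.al

/-- `b (T)` -/
noncomputable def Cor.b (T : K) : K := Polynomial.aeval T D.be

/-- `d (T) = b (T) ^ 2 - a (T) ^ 3` -/
noncomputable def Cor.d (T : K) : K := D.b T ^ 2 - D.a T ^ 3

/-- The point `(x, y)` of the fibre over `T`. -/
noncomputable def Cor.pt (T x y : K) : WPt W K := apt W (D.base T) x y

/-- The restriction of a function on the power of the surface to the product of the fibres over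
the points `T i`. -/
noncomputable def psT {n : ℕ} (Ψ : (Fin n → WPt W k) → ℂ) (T : Fin n → k) :
    (Fin n → k × k) → ℂ := fun p => Ψ (fun i => D.pt (T i) (p i).1 (p i).2)

end defs

section kfun

variable {k : Type u} [Field k] [IsAlgClosed k] [Good k] {W : Wei k} (D : Cor W)
  {K : Type u} [Field K] [Algebra k K] {n : ℕ}

/-- The point of the power of the surface with coordinates in the function field `K`: the
coordinates `z i` and `ω ^ (e i) * v i` on the covering of the fibre over `t i`. -/
noncomputable def kpt (ω : k) (t z v : Fin n → K) (e : Fin n → ZMod 3) : Fin n → WPt W K :=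
  fun i => D.pt (t i) (px (D.a (t i)) (algebraMap k K (ω ^ (e i).val) * v i))
    (py (D.d (t i)) (z i) (algebraMap k K (ω ^ (e i).val) * v i))

/-- The function on the places of `K` given by the values of `Ψ` at the points `kpt`. -/
noncomputable def KF (ω : k) (θ : ℂ) (Ψ : (Fin n → WPt W k) → ℂ) (hK : IsFunctionField k K)
    (t z v : Fin n → K) (w : Place k K) : ℂ :=
  ∑ e : Fin n → ZMod 3, θ ^ (-∑ i, e i).val *
    Ψ ((W.surface.pow n).eval hK (kpt D ω t z v e) w)

end kfun

end Pool.Agent.Helper83.VN

end CX
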