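import Mathlib
import Pool.Agent.Helper40.CX.H83VN.Cor
import Pool.Agent.Helper40.CX.Good2

namespace CX

/-!
# Block VN-EXC: adapted coordinates exist

Template: `Pool.Agent.Helper83.KV.exists_core` (`Helper83/KV/Core.lean`), without the splitting of the
discriminant.

`cor_j`: if `be ^ 2` and `al ^ 3` are proportional, so are `W.B ^ 2` and `W.A ^ 3` (both are
homogeneous of degree `12 N`, and a binary form vanishing at all points `e0 + T e1` is zero; use
`D.hA k`, `D.hB k`, homogeneity and an infinite field, `MvPolynomial.funext`).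
-/

set_option linter.unusedSectionVars false

namespace Pool.Agent.Helper83.VN

open VC VF Function
open Pool.Agent.Helper51.EW Pool.Agent.Helper51.VN

universe u

variable {k : Type u} [Field k] [IsAlgClosed k] [Good k]

theorem exists_cor (W : Wei k) (hN : 1 ≤ W.N) (hΔ : 4 * W.A ^ 3 + 27 * W.B ^ 2 ≠ 0) :
    Nonempty (Cor W) := by
  have hA := W.hA
  have hB := W.hB
  have hΔh : (4 * W.A ^ 3 + 27 * W.B ^ 2).IsHomogeneous (12 * W.N) := by
    have h4 : (4 : MvPolynomial (Fin 2) k) = MvPolynomial.C 4 := (map_ofNat MvPolynomial.C 4).symm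
    have h27 : (27 : MvPolynomial (Fin 2) k) = MvPolynomial.C 27 :=
      (map_ofNat MvPolynomial.C 27).symm
    rw [h4, h27]
    have e1 := (MvPolynomial.isHomogeneous_C (Fin 2) (4 : k)).mul (hA.pow 3)
    have e2 := (MvPolynomial.isHomogeneous_C (Fin 2) (27 : k)).mul (hB.pow 2)
    rw [show 0 + 4 * W.N * 3 = 12 * W.N by ring] at e1
    rw [show 0 + 6 * W.N * 2 = 12 * W.N by ring] at e2
    exact e1.add e2
  obtain ⟨r, hr, hr0⟩ := Helper83.EW.exists_zero (by omega) hΔh
  obtain ⟨E, hE⟩ := Helper83.EW.exists_bas hr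
  have hf0 : Helper83.EW.deh E (4 * W.A ^ 3 + 27 * W.B ^ 2) ≠ 0 :=
    Helper83.EW.deh_ne_zero E hΔh hΔ
  have hc : (1 / 108 : k) ≠ 0 := by norm_num
  refine ⟨{ e0 := E.e0, e1 := E.e1, det := ?_, al := Polynomial.C (-1 / 3) * Helper83.EW.deh E W.A,
            be := Polynomial.C (-1 / 2) * Helper83.EW.deh E W.B, hA := ?_, hB := ?_,
            hD := ?_, dal := ?_, dbe := ?_, sing := ?_ }⟩
  · rw [E.det]
    exact one_ne_zero
  · intro K _ _ T
    rw [map_mul, Polynomial.aeval_C, Helper83.EW.aeval_deh]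
    have : (-3 : K) * algebraMap k K (-1 / 3) = 1 := by
      have h6 : (-3 : K) = algebraMap k K (-3) := by rw [map_neg, map_ofNat]
      have h7 : (-3 : k) * (-1 / 3) = 1 := by
        field_simp
      rw [h6, ← map_mul, h7, map_one]
    rw [← mul_assoc, this, one_mul]
  · intro K _ _ T
    rw [map_mul, Polynomial.aeval_C, Helper83.EW.aeval_deh]
    have : (-2 : K) * algebraMap k K (-1 / 2) = 1 := by
      have h6 : (-2 : K) = algebraMap k K (-2) := by rw [map_neg, map_ofNat]
      have h7 : (-2 : k) * (-1 / 2) = 1 := by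
        field_simp
      rw [h6, ← map_mul, h7, map_one]
    rw [← mul_assoc, this, one_mul]
  · have e1 : Helper83.EW.deh E (4 * W.A ^ 3 + 27 * W.B ^ 2) =
        4 * Helper83.EW.deh E W.A ^ 3 + 27 * Helper83.EW.deh E W.B ^ 2 := by
      unfold Helper83.EW.deh
      simp only [map_add, map_mul, map_pow, map_ofNat]
    have e4 : (4 : Polynomial k) = Polynomial.C 4 := (map_ofNat Polynomial.C 4).symm
    have e27 : (27 : Polynomial k) = Polynomial.C 27 := (map_ofNat Polynomial.C 27).symm
    have e7 : (Polynomial.C (-1 / 2) * Helper83.EW.deh E W.B) ^ 2 -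
        (Polynomial.C (-1 / 3) * Helper83.EW.deh E W.A) ^ 3 = Polynomial.C (1 / 108) *
          Helper83.EW.deh E (4 * W.A ^ 3 + 27 * W.B ^ 2) := by
      rw [e1, e4, e27, mul_pow, mul_pow, ← Polynomial.C_pow, ← Polynomial.C_pow, mul_add,
        ← mul_assoc, ← mul_assoc, ← Polynomial.C_mul, ← Polynomial.C_mul]
      have hn2 : (2 : k) ≠ 0 := Good.two
      have hn3 : (3 : k) ≠ 0 := Good.three
      have h108 : (108 : k) = 2 ^ 2 * 3 ^ 3 := by norm_num
      have e5 : (-1 / 2 : k) ^ 2 = 1 / 108 * 27 := by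
        rw [h108]
        field_simp
        norm_num
      have e6 : (-1 / 3 : k) ^ 3 = -(1 / 108 * 4) := by
        rw [h108]
        field_simp
        norm_num
      rw [e5, e6, Polynomial.C_neg]
      ring
    rw [e7]
    exact mul_ne_zero (Polynomial.C_ne_zero.mpr hc) hf0
  · exact (Polynomial.natDegree_C_mul_le _ _).trans (Helper83.EW.natDegree_deh_le E hA)
  · exact (Polynomial.natDegree_C_mul_le _ _).trans (Helper83.EW.natDegree_deh_le E hB)
  · rw [hE]
    have := hr0
    rw [map_add, map_mul, map_mul, map_pow, map_pow, map_ofNat, map_ofNat] at this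
    exact this

theorem cor_j {W : Wei k} (D : Cor W) {c c' : k} (hc : c ≠ 0 ∨ c' ≠ 0)
    (h : Polynomial.C c * D.be ^ 2 = Polynomial.C c' * D.al ^ 3) :
    ∃ c d : k, (c ≠ 0 ∨ d ≠ 0) ∧
      MvPolynomial.C c * W.A ^ 3 = MvPolynomial.C d * W.B ^ 2 := by
  refine ⟨-4 * c', 27 * c, ?_, ?_⟩
  · rcases hc with h0 | h0
    · right
      exact mul_ne_zero (by norm_num) h0
    · left
      exact mul_ne_zero (by norm_num) h0
  · -- a basis of determinant one
    have hdet := D.det
    obtain ⟨δ, hδ⟩ : ∃ δ : k, δ = D.e0 0 * D.e1 1 - D.e0 1 * D.e1 0 := ⟨_, rfl⟩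
    rw [← hδ] at hdet
    let E : Helper83.EW.Bas k :=
      { e0 := D.e0, e1 := fun i => δ⁻¹ * D.e1 i, det := by
          have h1 : δ⁻¹ * δ = 1 := inv_mul_cancel₀ hdet
          have h2 : D.e0 0 * (δ⁻¹ * D.e1 1) - D.e0 1 * (δ⁻¹ * D.e1 0) = δ⁻¹ * δ := by
            rw [hδ]
            ring
          rw [h2, h1] }
    have hA := W.hA
    have hB := W.hB
    have hF : (MvPolynomial.C (-4 * c') * W.A ^ 3 - MvPolynomial.C (27 * c) * W.B ^ 2).IsHomogeneous
        (12 * W.N) := by
      have e1 := (MvPolynomial.isHomogeneous_C (Fin 2) (-4 * c')).mul (hA.pow 3)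
      have e2 := (MvPolynomial.isHomogeneous_C (Fin 2) (27 * c)).mul (hB.pow 2)
      rw [show 0 + 4 * W.N * 3 = 12 * W.N by ring] at e1
      rw [show 0 + 6 * W.N * 2 = 12 * W.N by ring] at e2
      exact e1.sub e2
    by_contra hne
    refine Helper83.EW.deh_ne_zero E hF (sub_ne_zero.mpr hne) ?_
    apply Polynomial.funext
    intro T
    rw [Polynomial.eval_zero, Helper83.EW.eval_deh]
    have e1 : (fun i => E.e0 i + T * E.e1 i) =
        (fun i => algebraMap k k (D.e0 i) + (T * δ⁻¹) * algebraMap k k (D.e1 i)) := by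
      funext i
      change D.e0 i + T * (δ⁻¹ * D.e1 i) = D.e0 i + (T * δ⁻¹) * D.e1 i
      ring
    rw [e1]
    have e2 := D.hA k (T * δ⁻¹)
    have e3 := D.hB k (T * δ⁻¹)
    rw [Polynomial.coe_aeval_eq_eval] at e2 e3
    simp only [map_sub, map_mul, map_pow, MvPolynomial.eval_C]
    have e2' : MvPolynomial.eval (fun i => algebraMap k k (D.e0 i) +
        (T * δ⁻¹) * algebraMap k k (D.e1 i)) W.A = -3 * Polynomial.eval (T * δ⁻¹) D.al := e2
    have e3' : MvPolynomial.eval (fun i => algebraMap k k (D.e0 i) +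
        (T * δ⁻¹) * algebraMap k k (D.e1 i)) W.B = -2 * Polynomial.eval (T * δ⁻¹) D.be := e3
    rw [e2', e3']
    have e4 := congrArg (Polynomial.eval (T * δ⁻¹)) h
    rw [Polynomial.eval_mul, Polynomial.eval_mul, Polynomial.eval_pow, Polynomial.eval_pow,
      Polynomial.eval_C, Polynomial.eval_C] at e4
    linear_combination (-108) * e4

end Pool.Agent.Helper83.VN

end CX
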