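import Mathlib
import Pool.Agent.Helper40.CX.H51EW.Odd2
import Pool.Agent.Helper40.CX.H51VK.Nod
import Pool.Agent.Helper40.CX.H51VN.Fun
import Pool.Agent.Helper40.CX.Good2

namespace CX

/-!
# Block VN-MNA: reduction of a Weierstrass equation which is not minimal

Let `A = l ^ 4 A'`, `B = l ^ 6 B'` with a nonzero linear form `l`, `W'` the Weierstrass equation
`(A', B')`, `W'.N + 1 = W.N`. The point `(u; x, y, z)` of `W'` (with `l (u) ≠ 0`) is mapped to the
point `(u; l (u) ^ 2 x, l (u) ^ 3 y, z)` of `W`; this is bijective on the points with `l (u) ≠ 0`, and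
the points of `W` with `l (u) = 0` lie on a cuspidal fibre, where odd functions vanish. So an odd
alternating function `Ψ` on the points of `W ^ n` gives a function `Ψ'` on the points of `W' ^ n`
(zero if one of the components lies over `l = 0`), which is odd and alternating, and kills the
cycles rationally equivalent to zero: for a curve in `W' ^ n` none of whose components lies over
`l = 0` the map gives a curve in `W ^ n`, and the values of the two functions agree at all places
(both are zero if one of the components has its value over `l = 0`). If one of the components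
of the curve lies over `l = 0` identically, the function is zero at all places.
-/

set_option linter.unusedSectionVars false

namespace Pool.Agent.Helper83.VN

open VC VF Function
open Pool.Agent.Helper51.EW Pool.Agent.Helper51.VN

universe u

section map56

variable {k : Type u} [Field k] {W W' : Wei k} {l : MvPolynomial (Fin 2) k}
  {K : Type u} [Field K] [Algebra k K]

/-- The data of the reduction. -/
private structure Red56 (W W' : Wei k) (l : MvPolynomial (Fin 2) k) : Prop where
  hl : l.IsHomogeneous 1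
  hN : W'.N + 1 = W.N
  hA : W.A = l ^ 4 * W'.A
  hB : W.B = l ^ 6 * W'.B

/-- The coordinates of the image. -/
private noncomputable def upC56 (D : Red56 W W' l) (a : Coord W' K) (h : MvPolynomial.aeval a.u l ≠ 0) :
    Coord W K where
  u := a.u
  w := ![MvPolynomial.aeval a.u l ^ 2 * a.w 0, MvPolynomial.aeval a.u l ^ 3 * a.w 1, a.w 2]
  u_ne := a.u_ne
  w_ne := by
    intro h0
    apply a.w_ne
    funext i
    fin_cases i
    · have h1 : MvPolynomial.aeval a.u l ^ 2 * a.w 0 = 0 := congrFun h0 0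
      exact (mul_eq_zero.mp h1).resolve_left (pow_ne_zero _ h)
    · have h1 : MvPolynomial.aeval a.u l ^ 3 * a.w 1 = 0 := congrFun h0 1
      exact (mul_eq_zero.mp h1).resolve_left (pow_ne_zero _ h)
    · exact congrFun h0 2
  eqn := by
    change (MvPolynomial.aeval a.u l ^ 3 * a.w 1) ^ 2 * a.w 2 =
      (MvPolynomial.aeval a.u l ^ 2 * a.w 0) ^ 3 +
      MvPolynomial.aeval a.u W.A * (MvPolynomial.aeval a.u l ^ 2 * a.w 0) * a.w 2 ^ 2 +
      MvPolynomial.aeval a.u W.B * a.w 2 ^ 3
    rw [D.hA, D.hB, map_mul, map_mul, map_pow, map_pow]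
    linear_combination MvPolynomial.aeval a.u l ^ 6 * a.eqn

/-- The coordinates of the preimage. -/
private noncomputable def downC56 (D : Red56 W W' l) (a : Coord W K) (h : MvPolynomial.aeval a.u l ≠ 0) :
    Coord W' K where
  u := a.u
  w := ![(MvPolynomial.aeval a.u l)⁻¹ ^ 2 * a.w 0, (MvPolynomial.aeval a.u l)⁻¹ ^ 3 * a.w 1, a.w 2]
  u_ne := a.u_ne
  w_ne := by
    intro h0
    apply a.w_ne
    funext i
    fin_cases i
    · have h1 : (MvPolynomial.aeval a.u l)⁻¹ ^ 2 * a.w 0 = 0 := congrFun h0 0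
      exact (mul_eq_zero.mp h1).resolve_left (pow_ne_zero _ (inv_ne_zero h))
    · have h1 : (MvPolynomial.aeval a.u l)⁻¹ ^ 3 * a.w 1 = 0 := congrFun h0 1
      exact (mul_eq_zero.mp h1).resolve_left (pow_ne_zero _ (inv_ne_zero h))
    · exact congrFun h0 2
  eqn := by
    change ((MvPolynomial.aeval a.u l)⁻¹ ^ 3 * a.w 1) ^ 2 * a.w 2 =
      ((MvPolynomial.aeval a.u l)⁻¹ ^ 2 * a.w 0) ^ 3 +
      MvPolynomial.aeval a.u W'.A * ((MvPolynomial.aeval a.u l)⁻¹ ^ 2 * a.w 0) * a.w 2 ^ 2 +
      MvPolynomial.aeval a.u W'.B * a.w 2 ^ 3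
    have e := a.eqn
    rw [D.hA, D.hB, map_mul, map_mul, map_pow, map_pow] at e
    field_simp
    linear_combination e

/-- `q` is the image of `p`. -/
private def Ov56 (D : Red56 W W' l) (p : WPt W' K) (q : WPt W K) : Prop :=
  ∃ (a : Coord W' K) (h : MvPolynomial.aeval a.u l ≠ 0), p = WPt.mk a ∧ q = WPt.mk (upC56 D a h)

private lemma same56 (D : Red56 W W' l) {a b : Coord W' K} (hs : Same a b) :
    ∃ s : K, s ≠ 0 ∧ MvPolynomial.aeval b.u l = s * MvPolynomial.aeval a.u l := by
  obtain ⟨s, c, hs0, hc, h1, h2⟩ := hs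
  refine ⟨s, hs0, ?_⟩
  have e : b.u = fun i => s * a.u i := funext h1
  rw [e, aeval_smul D.hl, pow_one]

private lemma up_same56 (D : Red56 W W' l) {a b : Coord W' K} (hs : Same a b)
    (ha : MvPolynomial.aeval a.u l ≠ 0) (hb : MvPolynomial.aeval b.u l ≠ 0) :
    WPt.mk (upC56 D a ha) = WPt.mk (upC56 D b hb) := by
  obtain ⟨s, c, hs0, hc, h1, h2⟩ := hs
  have e : b.u = fun i => s * a.u i := funext h1
  have e1 : MvPolynomial.aeval b.u l = s * MvPolynomial.aeval a.u l := by
    rw [e, aeval_smul D.hl, pow_one]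
  refine mk_eq_iff.mpr ⟨s, c, hs0, hc, h1, fun i => ?_⟩
  fin_cases i
  · have h3 : b.w 0 = s ^ (2 * W'.N) * c * a.w 0 := h2 0
    change MvPolynomial.aeval b.u l ^ 2 * b.w 0 =
      s ^ (2 * W.N) * c * (MvPolynomial.aeval a.u l ^ 2 * a.w 0)
    rw [e1, h3, ← D.hN]
    ring
  · have h3 : b.w 1 = s ^ (3 * W'.N) * c * a.w 1 := h2 1
    change MvPolynomial.aeval b.u l ^ 3 * b.w 1 =
      s ^ (3 * W.N) * c * (MvPolynomial.aeval a.u l ^ 3 * a.w 1)
    rw [e1, h3, ← D.hN]
    ring
  · exact h2 2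

private lemma ov_mk56 (D : Red56 W W' l) (a : Coord W' K) {q : WPt W K}
    (h : Ov56 D (WPt.mk a) q) : ∃ h : MvPolynomial.aeval a.u l ≠ 0, q = WPt.mk (upC56 D a h) := by
  obtain ⟨b, hb, h1, rfl⟩ := h
  have h2 := mk_eq_iff.mp h1
  obtain ⟨s, hs, h3⟩ := same56 D h2
  have h4 : MvPolynomial.aeval a.u l ≠ 0 := by
    intro h0
    rw [h0, mul_zero] at h3
    exact hb h3
  exact ⟨h4, (up_same56 D h2 h4 hb).symm⟩

private lemma ov_unique56 (D : Red56 W W' l) {p : WPt W' K} {q q' : WPt W K}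
    (h : Ov56 D p q) (h' : Ov56 D p q') : q = q' := by
  obtain ⟨a, ha, rfl, rfl⟩ := h
  obtain ⟨h1, rfl⟩ := ov_mk56 D a h'
  rfl

private lemma ov_neg56 (D : Red56 W W' l) {p : WPt W' K} {q : WPt W K}
    (h : Ov56 D p q) : Ov56 D (neg p) (neg q) := by
  obtain ⟨a, ha, rfl, rfl⟩ := h
  refine ⟨negC a, ha, neg_mk a, ?_⟩
  rw [neg_mk]
  refine mk_eq_iff.mpr ⟨1, 1, one_ne_zero, one_ne_zero, fun i => (one_mul _).symm, fun i => ?_⟩
  rw [one_pow, one_mul, one_mul]
  fin_cases i
  · rfl
  · change MvPolynomial.aeval a.u l ^ 3 * (-a.w 1) = -(MvPolynomial.aeval a.u l ^ 3 * a.w 1)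
    ring
  · rfl

private lemma ov_or56 (D : Red56 W W' l) (p : WPt W' K) :
    (∃ q, Ov56 D p q) ∨ ∃ a : Coord W' K, p = WPt.mk a ∧ MvPolynomial.aeval a.u l = 0 := by
  obtain ⟨a, rfl⟩ := exists_mk p
  by_cases h : MvPolynomial.aeval a.u l = 0
  · exact Or.inr ⟨a, rfl, h⟩
  · exact Or.inl ⟨_, a, h, rfl, rfl⟩

private lemma ov_down56 (D : Red56 W W' l) (a : Coord W K) (h : MvPolynomial.aeval a.u l ≠ 0) :
    Ov56 D (WPt.mk (downC56 D a h)) (WPt.mk a) := by
  refine ⟨downC56 D a h, h, rfl, mk_eq_iff.mpr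
    ⟨1, 1, one_ne_zero, one_ne_zero, fun i => (one_mul _).symm, fun i => ?_⟩⟩
  rw [one_pow, one_mul, one_mul]
  fin_cases i
  · change MvPolynomial.aeval a.u l ^ 2 * ((MvPolynomial.aeval a.u l)⁻¹ ^ 2 * a.w 0) = a.w 0
    rw [inv_pow, mul_inv_cancel_left₀ (pow_ne_zero _ h)]
  · change MvPolynomial.aeval a.u l ^ 3 * ((MvPolynomial.aeval a.u l)⁻¹ ^ 3 * a.w 1) = a.w 1
    rw [inv_pow, mul_inv_cancel_left₀ (pow_ne_zero _ h)]
  · rfl

variable [IsAlgClosed k] [Good k]

private lemma ov_val56 (D : Red56 W W' l) (hK : IsFunctionField k K) (v : Place k K)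
    {x : WPt W' K} {y : WPt W K} (h : Ov56 D x y) :
    Ov56 D (W'.surface.eval hK x v) (W.surface.eval hK y v) ∨
      ((∃ b : Coord W' k, W'.surface.eval hK x v = WPt.mk b ∧ MvPolynomial.aeval b.u l = 0) ∧
        ∃ b : Coord W k, W.surface.eval hK y v = WPt.mk b ∧ MvPolynomial.aeval b.u l = 0) := by
  obtain ⟨a, b, h1, h2, h3, h4⟩ := exists_coords hK v x
  rw [h1] at h
  obtain ⟨ha, rfl⟩ := ov_mk56 D a h
  have hr : IsRes v (MvPolynomial.aeval a.u l) (MvPolynomial.aeval b.u l) := isRes_aeval h3 l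
  by_cases hb : MvPolynomial.aeval b.u l = 0
  · right
    refine ⟨⟨b, h2, hb⟩, ?_⟩
    obtain ⟨b', hb', h5⟩ := eval_base hK v (upC56 D a ha) b.u_ne h3
    exact ⟨b', h5, by rw [hb']; exact hb⟩
  · left
    refine ⟨b, hb, h2, ?_⟩
    apply eval_eq hK v (upC56 D a ha) (upC56 D b hb) h3
    intro i
    fin_cases i
    · exact (hr.pow 2).mul (h4 0)
    · exact (hr.pow 3).mul (h4 1)
    · exact h4 2

open Classical in
/-- The function on the points of `W' ^ n`. -/
private noncomputable def Psi56 (D : Red56 W W' l) {n : ℕ} (Ψ : (W.surface.pow n).Pt → ℂ)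
    (p : (W'.surface.pow n).Pt) : ℂ :=
  if h : ∀ i, ∃ q, Ov56 D (p i) q then Ψ (fun i => (h i).choose) else 0

variable {n : ℕ} {Ψ : (W.surface.pow n).Pt → ℂ}

private lemma psi_eq56 (D : Red56 W W' l) {p : (W'.surface.pow n).Pt} {q : (W.surface.pow n).Pt}
    (h : ∀ i, Ov56 D (p i) (q i)) : Psi56 D Ψ p = Ψ q := by
  unfold Psi56
  have h1 : ∀ i, ∃ q, Ov56 D (p i) q := fun i => ⟨q i, h i⟩
  rw [dif_pos h1]
  congr 1
  funext i
  exact ov_unique56 D (h1 i).choose_spec (h i)

private lemma psi_zero56 (D : Red56 W W' l) {p : (W'.surface.pow n).Pt} {i : Fin n}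
    {a : Coord W' k} (h : p i = WPt.mk a) (ha : MvPolynomial.aeval a.u l = 0) :
    Psi56 D Ψ p = 0 := by
  unfold Psi56
  rw [dif_neg]
  intro h1
  obtain ⟨q, hq⟩ := h1 i
  rw [h] at hq
  obtain ⟨h2, -⟩ := ov_mk56 D a hq
  exact h2 ha

private lemma sing56 (D : Red56 W W' l) (h : Odd W n Ψ) {p : (W.surface.pow n).Pt} {i : Fin n}
    {a : Coord W k} (hi : p i = WPt.mk a) (ha : MvPolynomial.aeval a.u l = 0) : Ψ p = 0 := by
  apply h.zero_of_sing hi
  · rw [D.hA, map_mul, map_pow, ha]
    ring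
  · rw [D.hB, map_mul, map_pow, ha]
    ring

private lemma psi_cases56 (D : Red56 W W' l) (p : (W'.surface.pow n).Pt) :
    (∃ q : (W.surface.pow n).Pt, ∀ i, Ov56 D (p i) (q i)) ∨
      ∃ (i : Fin n) (a : Coord W' k), p i = WPt.mk a ∧ MvPolynomial.aeval a.u l = 0 := by
  by_cases h : ∀ i, ∃ q, Ov56 D (p i) q
  · choose q hq using h
    exact Or.inl ⟨q, hq⟩
  · rw [not_forall] at h
    obtain ⟨i, hi⟩ := h
    obtain ⟨a, ha⟩ := (ov_or56 D (p i)).resolve_left hi
    exact Or.inr ⟨i, a, ha⟩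

private lemma psi_kills56 (D : Red56 W W' l) (h : Odd W n Ψ) :
    Kills (W'.surface.pow n) (Psi56 D Ψ) := by
  classical
  intro z hz
  have hcl : (W'.surface.pow n).Rat ≤
      (LinearMap.ker (Finsupp.linearCombination ℤ (Psi56 D Ψ))).toAddSubgroup := by
    unfold Variety.Rat
    rw [AddSubgroup.closure_le]
    rintro z ⟨K, _, _, hK, c, f, hf, rfl⟩
    rw [SetLike.mem_coe, Submodule.mem_toAddSubgroup, LinearMap.mem_ker]
    rw [finsum_eq_sum_of_support_subset (s := (finite_support_ord hK hf).toFinset)]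
    · rw [map_sum]
      have e1 : ∀ v ∈ (finite_support_ord hK hf).toFinset,
          Finsupp.linearCombination ℤ (Psi56 D Ψ)
            (Finsupp.single ((W'.surface.pow n).eval hK c v) (ord v.ring f)) =
          (ord v.ring f : ℂ) * Psi56 D Ψ (fun i => W'.surface.eval hK (c i) v) := by
        intro v _
        rw [Finsupp.linearCombination_single, zsmul_eq_mul]
      rw [Finset.sum_congr rfl e1]
      by_cases hdw : ∀ i, ∃ q, Ov56 D (c i) q
      · choose c' hc' using hdw
        have hval : ∀ v : Place k K,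
            Psi56 D Ψ (fun i => W'.surface.eval hK (c i) v) =
              Ψ ((W.surface.pow n).eval hK c' v) := by
          intro v
          by_cases hg : ∀ i, Ov56 D (W'.surface.eval hK (c i) v) (W.surface.eval hK (c' i) v)
          · exact psi_eq56 D hg
          · rw [not_forall] at hg
            obtain ⟨i, hi⟩ := hg
            obtain ⟨⟨b, hb, hb0⟩, b', hb', hb0'⟩ := (ov_val56 D hK v (hc' i)).resolve_left hi
            have h1 : Psi56 D Ψ (fun i => W'.surface.eval hK (c i) v) = 0 :=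
              psi_zero56 D (i := i) hb hb0
            have h2 : Ψ ((W.surface.pow n).eval hK c' v) = 0 :=
              sing56 D h (i := i) hb' hb0'
            rw [h1, h2]
        simp only [hval]
        exact h.kills.gen hK c' hf
      · apply Finset.sum_eq_zero
        intro v _
        rw [not_forall] at hdw
        obtain ⟨i, hi⟩ := hdw
        obtain ⟨a, ha, ha0⟩ := (ov_or56 D (c i)).resolve_left hi
        obtain ⟨a', b, h1, h2, h3, h4⟩ := exists_coords hK v (c i)
        have h5 : MvPolynomial.aeval a'.u l = 0 := by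
          obtain ⟨s, hs, h6⟩ := same56 D (mk_eq_iff.mp (ha.symm.trans h1))
          rw [h6, ha0, mul_zero]
        have h6 : MvPolynomial.aeval b.u l = 0 := by
          have hr : IsRes v (MvPolynomial.aeval a'.u l) (MvPolynomial.aeval b.u l) :=
            isRes_aeval h3 l
          rw [h5] at hr
          exact hr.unique isRes_zero
        have h7 : Psi56 D Ψ (fun i => W'.surface.eval hK (c i) v) = 0 :=
          psi_zero56 D (i := i) h2 h6
        rw [h7, mul_zero]
    · intro v hv
      rw [Set.Finite.coe_toFinset, Set.mem_ofPred_eq]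
      intro h0
      apply hv
      beta_reduce
      rw [h0, Finsupp.single_zero]
  exact hcl hz

private lemma psi_odd56 (D : Red56 W W' l) (h : Odd W n Ψ) : Odd W' n (Psi56 D Ψ) where
  kills := psi_kills56 D h
  odd := by
    intro p i
    rcases psi_cases56 D p with ⟨q, hq⟩ | ⟨j, a, hj, ha⟩
    · have h1 : ∀ j, Ov56 D (update p i (neg (p i)) j) (update q i (neg (q i)) j) := by
        intro j
        by_cases hj : j = i
        · subst hj
          rw [update_self, update_self]
          exact ov_neg56 D (hq j)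
        · rw [update_of_ne hj, update_of_ne hj]
          exact hq j
      rw [psi_eq56 D h1, psi_eq56 D hq]
      exact h.odd q i
    · rw [psi_zero56 D hj ha, neg_zero]
      by_cases hij : j = i
      · subst hij
        refine psi_zero56 D (i := j) (a := negC a) ?_ ha
        rw [update_self, hj, neg_mk]
      · refine psi_zero56 D (i := j) (a := a) ?_ ha
        rw [update_of_ne hij, hj]
  alt := by
    intro i j hij p
    rcases psi_cases56 D p with ⟨q, hq⟩ | ⟨m, a, hm, ha⟩
    · have h1 : ∀ m, Ov56 D ((fun m => p (Equiv.swap i j m)) m)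
          ((fun m => q (Equiv.swap i j m)) m) := fun m => hq _
      rw [psi_eq56 D h1, psi_eq56 D hq]
      exact h.alt i j hij q
    · rw [psi_zero56 D hm ha, neg_zero]
      refine psi_zero56 D (i := Equiv.swap i j m) (a := a) ?_ ha
      rw [Equiv.swap_apply_self, hm]

end map56

variable {k : Type u} [Field k] [IsAlgClosed k] [Good k]

/-- Reduction of a Weierstrass equation which is not minimal. -/
theorem red {W W' : Wei k} {l : MvPolynomial (Fin 2) k} (hl : l.IsHomogeneous 1) (hl0 : l ≠ 0)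
    (hN : W'.N + 1 = W.N) (hA : W.A = l ^ 4 * W'.A) (hB : W.B = l ^ 6 * W'.B) {n : ℕ}
    {Ψ : (W.surface.pow n).Pt → ℂ} (h : Odd W n Ψ) :
    ∃ Ψ' : (W'.surface.pow n).Pt → ℂ, Odd W' n Ψ' ∧
      (∀ (p : Fin n → WPt W' k) (c : Fin n → Coord W' k) (i : Fin n), (∀ j, p j = WPt.mk (c j)) →
        MvPolynomial.eval (c i).u l = 0 → Ψ' p = 0) ∧
      ((∀ p, Ψ' p = 0) → ∀ p, Ψ p = 0) := by
  have D : Red56 W W' l := ⟨hl, hN, hA, hB⟩
  refine ⟨Psi56 D Ψ, psi_odd56 D h, ?_, ?_⟩
  · intro p c i hp hi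
    exact psi_zero56 D (i := i) (hp i) (by rw [MvPolynomial.aeval_eq_eval]; exact hi)
  · intro h0 p
    have h1 : ∀ i, ∃ a : Coord W k, p i = WPt.mk a := fun i => exists_mk (p i)
    choose a ha using h1
    by_cases hg : ∀ i, MvPolynomial.aeval (a i).u l ≠ 0
    · have h2 : ∀ i, Ov56 D (WPt.mk (downC56 D (a i) (hg i))) (p i) := by
        intro i
        rw [ha i]
        exact ov_down56 D (a i) (hg i)
      have h3 := psi_eq56 (Ψ := Ψ) D (p := fun i => WPt.mk (downC56 D (a i) (hg i))) (q := p) h2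
      rw [← h3]
      exact h0 _
    · rw [not_forall] at hg
      obtain ⟨i, hi⟩ := hg
      rw [not_not] at hi
      exact sing56 D h (ha i) hi

end Pool.Agent.Helper83.VN

end CX
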