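import Mathlib
import Pool.Agent.Helper40.CX.H83VN.MnA
import Pool.Agent.Helper40.CX.H83VN.MnB
import Pool.Agent.Helper40.CX.H83EW.Red
import Pool.Agent.Helper40.CX.H83EW.Red2
import Pool.Agent.Helper40.CX.H51EW.Final
import Pool.Agent.Helper40.CX.Good2

namespace CX

/-!
# Block VN-MNC: the isotrivial case, without minimality

`odd_zero_iso`: strong induction on `W.N`: if there is no such `l`, `Helper83.EW.exists_core` and
`Helper51.EW.core_n`. Otherwise `red` and the induction hypothesis, or `red_const`.
-/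

set_option linter.unusedSectionVars false

namespace Pool.Agent.Helper83.VN

open VC VF Function
open Pool.Agent.Helper51.EW Pool.Agent.Helper51.VN

universe u

variable {k : Type u} [Field k] [IsAlgClosed k] [Good k]

section homog

variable {F : Type*} [Field F] {σ : Type*}

private theorem mnc_hcomp {f : MvPolynomial σ F} {m : ℕ} (hf : f.IsHomogeneous m)
    (g : MvPolynomial σ F) (d : ℕ) :
    MvPolynomial.homogeneousComponent (d + m) (f * g) =
      f * MvPolynomial.homogeneousComponent d g := by
  classical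
  conv_lhs => rw [← MvPolynomial.sum_homogeneousComponent g]
  rw [Finset.mul_sum, map_sum]
  have h : ∀ i ∈ Finset.range (g.totalDegree + 1),
      MvPolynomial.homogeneousComponent (d + m) (f * MvPolynomial.homogeneousComponent i g) =
        if i = d then f * MvPolynomial.homogeneousComponent d g else 0 := by
    intro i _
    have h1 : (f * MvPolynomial.homogeneousComponent i g).IsHomogeneous (m + i) :=
      hf.mul (MvPolynomial.homogeneousComponent_isHomogeneous i g)
    rw [MvPolynomial.homogeneousComponent_of_mem h1]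
    by_cases hid : i = d
    · subst hid; simp [add_comm]
    · rw [if_neg hid, if_neg]; omega
  rw [Finset.sum_congr rfl h, Finset.sum_ite_eq']
  split_ifs with h2
  · rfl
  · rw [MvPolynomial.homogeneousComponent_eq_zero d g (by simpa using h2)]; simp

/-- A cofactor of a homogeneous polynomial is homogeneous. -/
private theorem mnc_hom {f g : MvPolynomial σ F} {m d : ℕ} (hf : f.IsHomogeneous m)
    (hf0 : f ≠ 0) (hfg : (f * g).IsHomogeneous (d + m)) : g.IsHomogeneous d := by
  have h1 := mnc_hcomp hf g d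
  rw [MvPolynomial.homogeneousComponent_of_mem hfg, if_pos rfl] at h1
  have h2 := mul_left_cancel₀ hf0 h1
  rw [h2]
  exact MvPolynomial.homogeneousComponent_isHomogeneous d g

end homog

private theorem mnc_main (N : ℕ) : ∀ (W : Wei k) (n : ℕ), W.N = N → 1 ≤ W.N → W.N ≤ n →
    4 * W.A ^ 3 + 27 * W.B ^ 2 ≠ 0 →
    (∃ c d : k, (c ≠ 0 ∨ d ≠ 0) ∧
      MvPolynomial.C c * W.A ^ 3 = MvPolynomial.C d * W.B ^ 2) →
    ∀ (Ψ : (W.surface.pow n).Pt → ℂ), Odd W n Ψ → ∀ p : (W.surface.pow n).Pt, Ψ p = 0 := by
  induction N with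
  | zero =>
    intro W n hWN h1
    omega
  | succ N ih =>
    intro W n hWN h1 hn hΔ hj Ψ h p
    by_cases hmin : ∀ l : MvPolynomial (Fin 2) k, l.IsHomogeneous 1 →
        ¬ (l ^ 4 ∣ W.A ∧ l ^ 6 ∣ W.B)
    · obtain ⟨D⟩ := Pool.Agent.Helper83.EW.exists_core W h1 hΔ hmin hj
      exact core_n D h1 hn h p
    · push Not at hmin
      obtain ⟨l, hl, ⟨A', hA⟩, ⟨B', hB⟩⟩ := hmin
      have hl0 : l ≠ 0 := by
        rintro rfl
        apply hΔ
        rw [hA, hB]
        ring
      have hl4 : (l ^ 4).IsHomogeneous 4 := by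
        have := hl.pow 4
        rwa [one_mul] at this
      have hl6 : (l ^ 6).IsHomogeneous 6 := by
        have := hl.pow 6
        rwa [one_mul] at this
      have hA' : A'.IsHomogeneous (4 * N) := by
        apply mnc_hom hl4 (pow_ne_zero _ hl0)
        rw [← hA]
        have := W.hA
        rw [hWN] at this
        have e : 4 * N + 4 = 4 * (N + 1) := by ring
        rw [e]
        exact this
      have hB' : B'.IsHomogeneous (6 * N) := by
        apply mnc_hom hl6 (pow_ne_zero _ hl0)
        rw [← hB]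
        have := W.hB
        rw [hWN] at this
        have e : 6 * N + 6 = 6 * (N + 1) := by ring
        rw [e]
        exact this
      let W' : Wei k := ⟨N, A', B', hA', hB'⟩
      have hW'N : W'.N + 1 = W.N := hWN.symm
      obtain ⟨Ψ', h', hz, hback⟩ := red (W := W) (W' := W') hl hl0 hW'N hA hB h
      apply hback
      intro p'
      by_cases hN0 : N = 0
      · exact red_const (W' := W') hl hl0 hN0 (by omega) h' hz p'
      · refine ih W' n rfl (Nat.one_le_iff_ne_zero.mpr hN0) ?_ ?_ ?_ Ψ' h' p'
        · change N ≤ n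
          omega
        · intro h0
          apply hΔ
          have h0' : 4 * A' ^ 3 + 27 * B' ^ 2 = 0 := h0
          rw [hA, hB]
          linear_combination l ^ 12 * h0'
        · obtain ⟨c, d, hcd, he⟩ := hj
          refine ⟨c, d, hcd, ?_⟩
          change MvPolynomial.C c * A' ^ 3 = MvPolynomial.C d * B' ^ 2
          apply mul_left_cancel₀ (pow_ne_zero 12 hl0)
          rw [hA, hB] at he
          linear_combination he

theorem odd_zero_iso {W : Wei k} {n : ℕ} (h1 : 1 ≤ W.N) (hn : W.N ≤ n)
    (hΔ : 4 * W.A ^ 3 + 27 * W.B ^ 2 ≠ 0)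
    (hj : ∃ c d : k, (c ≠ 0 ∨ d ≠ 0) ∧
      MvPolynomial.C c * W.A ^ 3 = MvPolynomial.C d * W.B ^ 2)
    {Ψ : (W.surface.pow n).Pt → ℂ} (h : Odd W n Ψ) (p : (W.surface.pow n).Pt) : Ψ p = 0 := by
  exact mnc_main W.N W n rfl h1 hn hΔ hj Ψ h p

end Pool.Agent.Helper83.VN

end CX
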