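import Mathlib
import Pool.Agent.Helper40.CX.H83VN.Cor
import Pool.Agent.Helper40.CX.Good2

namespace CX

/-!
# Block VN-GNR: general points

`exists_gn`: the rational function `b ^ 2 / d` is not constant (if it were, `be ^ 2` and `al ^ 3`
would be proportional), so it takes infinitely many values; exclude the zeros of `al`, `be`,
`be ^ 2 - al ^ 3`. Choose the `S i` inductively (or: the set of admissible `t` is infinite, and the
fibres of `b ^ 2 / d` are finite, so the image is infinite and contains `n` different values).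
-/

set_option linter.unusedSectionVars false

namespace Pool.Agent.Helper83.VN

open VC VF Function
open Pool.Agent.Helper51.EW Pool.Agent.Helper51.VN

universe u

variable {k : Type u} [Field k] [IsAlgClosed k] [Good k]

/-- The points `T i` are general: the fibres are smooth, `a`, `b` do not vanish and the spectral
values `4 b ^ 2 / d` are different. -/
structure Gn {W : Wei k} (D : Cor W) {n : ℕ} (T : Fin n → k) : Prop where
  ha : ∀ i, D.a (T i) ≠ 0
  hb : ∀ i, D.b (T i) ≠ 0
  hd : ∀ i, D.d (T i) ≠ 0
  hj : ∀ i j, i ≠ j → D.b (T i) ^ 2 * D.d (T j) ≠ D.b (T j) ^ 2 * D.d (T i)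

theorem exists_gn {W : Wei k} (D : Cor W)
    (hj : ∀ c c' : k, (c ≠ 0 ∨ c' ≠ 0) →
      Polynomial.C c * D.be ^ 2 ≠ Polynomial.C c' * D.al ^ 3) (n : ℕ) :
    ∃ S : Fin n → k, Gn D S := by
  have hbe : D.be ≠ 0 := by
    intro h
    refine hj 1 0 (Or.inl one_ne_zero) ?_
    rw [h]
    simp
  have hal : D.al ≠ 0 := by
    intro h
    refine hj 0 1 (Or.inr one_ne_zero) ?_
    rw [h]
    simp
  have hev : ∀ (p : Polynomial k) (t : k), Polynomial.aeval t p = p.eval t := fun p t => by
    rw [Polynomial.coe_aeval_eq_eval]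
  induction n with
  | zero => exact ⟨fun i => i.elim0, fun i => i.elim0, fun i => i.elim0, fun i => i.elim0, fun i => i.elim0⟩
  | succ n ih =>
    obtain ⟨S, hS⟩ := ih
    obtain ⟨P, hP⟩ : ∃ P : Polynomial k, P = D.al * D.be * (D.be ^ 2 - D.al ^ 3) *
      ∏ i, (Polynomial.C (D.a (S i) ^ 3) * D.be ^ 2 - Polynomial.C (D.b (S i) ^ 2) * D.al ^ 3) := ⟨_, rfl⟩
    have hP0 : P ≠ 0 := by
      rw [hP]
      refine mul_ne_zero (mul_ne_zero (mul_ne_zero hal hbe) D.hD) (Finset.prod_ne_zero_iff.2 fun i _ => ?_)
      exact sub_ne_zero.2 (hj _ _ (Or.inl (pow_ne_zero 3 (hS.ha i))))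
    obtain ⟨t, ht⟩ : ∃ t : k, P.eval t ≠ 0 := by
      by_contra hcon
      push Not at hcon
      exact hP0 (Polynomial.funext fun t => by rw [hcon t, Polynomial.eval_zero])
    rw [hP, Polynomial.eval_mul, Polynomial.eval_mul, Polynomial.eval_mul, Polynomial.eval_prod] at ht
    have h1 := left_ne_zero_of_mul ht
    have h2 := right_ne_zero_of_mul ht
    have h3 := left_ne_zero_of_mul h1
    have h4 := right_ne_zero_of_mul h1
    have ha : D.a t ≠ 0 := by
      rw [Cor.a, hev]
      exact left_ne_zero_of_mul h3
    have hb : D.b t ≠ 0 := by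
      rw [Cor.b, hev]
      exact right_ne_zero_of_mul h3
    have hd : D.d t ≠ 0 := by
      rw [Cor.d, Cor.a, Cor.b, hev, hev, ← Polynomial.eval_pow, ← Polynomial.eval_pow, ← Polynomial.eval_sub]
      exact h4
    have hne : ∀ i, D.a (S i) ^ 3 * D.b t ^ 2 ≠ D.b (S i) ^ 2 * D.a t ^ 3 := by
      intro i h
      refine (Finset.prod_ne_zero_iff.1 h2 i (Finset.mem_univ i)) ?_
      rw [Polynomial.eval_sub, Polynomial.eval_mul, Polynomial.eval_mul, Polynomial.eval_C, Polynomial.eval_C,
        Polynomial.eval_pow, Polynomial.eval_pow, ← hev D.be t, ← hev D.al t]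
      exact sub_eq_zero.2 h
    refine ⟨Fin.cons t S, ?_, ?_, ?_, ?_⟩
    · intro i
      refine Fin.cases ?_ (fun j => ?_) i
      · rw [Fin.cons_zero]
        exact ha
      · rw [Fin.cons_succ]
        exact hS.ha j
    · intro i
      refine Fin.cases ?_ (fun j => ?_) i
      · rw [Fin.cons_zero]
        exact hb
      · rw [Fin.cons_succ]
        exact hS.hb j
    · intro i
      refine Fin.cases ?_ (fun j => ?_) i
      · rw [Fin.cons_zero]
        exact hd
      · rw [Fin.cons_succ]
        exact hS.hd j
    · intro i j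
      refine Fin.cases ?_ (fun i' => ?_) i
      · refine Fin.cases (fun h => absurd rfl h) (fun j' _ => ?_) j
        rw [Fin.cons_zero, Fin.cons_succ]
        intro h
        refine hne j' ?_
        unfold Cor.d at h
        linear_combination -h
      · refine Fin.cases (fun _ => ?_) (fun j' hij => ?_) j
        · rw [Fin.cons_zero, Fin.cons_succ]
          intro h
          refine hne i' ?_
          unfold Cor.d at h
          linear_combination h
        · rw [Fin.cons_succ, Fin.cons_succ]
          exact hS.hj i' j' fun h => hij (by rw [h])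

end Pool.Agent.Helper83.VN

end CX
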