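import Mathlib
import Pool.Agent.Helper40.CX.H83VN.Defs
import Pool.Agent.Helper40.CX.Good2

namespace CX

/-!
# Chains and four-vectors under homomorphisms
-/

set_option linter.unusedSectionVars false

namespace Pool.Agent.Helper83.VN

open Polynomial

/-- The image of an edge. -/
def Ed.map {ι F G : Type*} (f : F → G) (e : Ed ι F) : Ed ι G := ⟨e.i, f e.b, f e.κ, f e.z⟩

/-- The image of a four-vector. -/
noncomputable def V4.map {F G : Type*} [Semiring F] [Semiring G] (f : F →+* G) (V : V4 F) : V4 G :=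
  ⟨V.U.map f, V.U'.map f, V.Q.map f, V.R.map f⟩

/-- The bounds for the degrees, for an arbitrary semiring; `V4.Deg n V` is the same statement for
fields. -/
def Dg {A : Type*} [Semiring A] (n : ℕ) (V : V4 A) : Prop :=
  (∀ m, (n + 1) / 2 ≤ m → V.U.coeff m = 0) ∧ (∀ m, (n + 1) / 2 ≤ m → V.U'.coeff m = 0) ∧
  (∀ m, n / 2 + 1 ≤ m → V.Q.coeff m = 0) ∧ (∀ m, n / 2 ≤ m → V.R.coeff m = 0)

section maps

variable {ι F G : Type*} [Field F] [Field G] (f : F →+* G)

lemma V4.map_map {A B C : Type*} [Semiring A] [Semiring B] [Semiring C] (f : A →+* B) (g : B →+* C)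
    (V : V4 A) : (V.map f).map g = V.map (g.comp f) := by
  simp [V4.map, Polynomial.map_map]

lemma form_map (V : V4 F) : (V.map f).form = V.form.map f := by
  simp [V4.map, V4.form]

lemma ev_four {A B : Type*} [Semiring A] [Semiring B] (f : A →+* B) (p : A[X]) :
    (p.map f).eval 4 = f (p.eval 4) := by
  have h := Polynomial.eval_map_apply f (p := p) 4
  rwa [map_ofNat] at h

lemma N_map (V : V4 F) : (V.map f).N = f V.N := by
  simp only [V4.map, V4.N, ev_four, map_sub]

lemma z_map (V : V4 F) : (V.map f).z = f V.z := by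
  simp only [V4.map, V4.z, ev_four, map_neg]

lemma z'_map (V : V4 F) : (V.map f).z' = f V.z' := by
  simp only [V4.map, V4.z', ev_four, map_neg]

lemma tor_map (V : V4 F) (x : F) : (V.tor x).map f = (V.map f).tor (f x) := by
  simp [V4.map, V4.tor]

lemma dg_map {n : ℕ} {A B : Type*} [Semiring A] [Semiring B] (f : A →+* B) {V : V4 A}
    (h : Dg n V) : Dg n (V.map f) := by
  obtain ⟨h1, h2, h3, h4⟩ := h
  refine ⟨fun m hm => ?_, fun m hm => ?_, fun m hm => ?_, fun m hm => ?_⟩
  · simp [V4.map, h1 m hm]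
  · simp [V4.map, h2 m hm]
  · simp [V4.map, h3 m hm]
  · simp [V4.map, h4 m hm]

lemma deg_iff {n : ℕ} {V : V4 F} : V.Deg n ↔ Dg n V := Iff.rfl

lemma s_map (e : Ed ι F) : (e.map f).s = f e.s := by
  simp only [Ed.map, Ed.s, map_div₀, map_add, map_ofNat]

lemma t_map (e : Ed ι F) : (e.map f).t = f e.t := by
  simp only [Ed.map, Ed.t, map_div₀, map_sub, map_ofNat]

lemma w_map (e : Ed ι F) : (e.map f).w = f e.w := by
  simp only [Ed.w, s_map, t_map, map_div₀, map_mul, map_pow]
  rfl

lemma ups_map (e : Ed ι F) : (e.map f).ups = f e.ups := by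
  simp only [Ed.ups, s_map, t_map, map_div₀, map_mul, map_add]
  rfl

lemma act_map (e : Ed ι F) (V : V4 F) : act (e.map f) (V.map f) = (act e V).map f := by
  have h1 : (e.map f).z = f e.z := rfl
  have h2 : (e.map f).b = f e.b := rfl
  have h3 : (e.map f).κ = f e.κ := rfl
  have h4 : f 2 = 2 := map_ofNat f 2
  ext1 <;> simp [V4.map, act, s_map, t_map, h1, h2, h3, h4]

lemma vec_map (c : List (Ed ι F)) : vec (c.map (Ed.map f)) = (vec c).map f := by
  induction c with
  | nil => simp [vec, V4.map]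
  | cons e c ih => rw [List.map_cons, vec, vec, ih, act_map]

lemma fine_map {e : Ed ι F} (h : e.Fine) : (e.map f).Fine := by
  have hf : Function.Injective f := f.injective
  refine ⟨?_, ?_, ?_, ?_, ?_, ?_, ?_⟩
  · exact fun h' => h.b ((map_eq_zero f).1 h')
  · exact fun h' => h.κ ((map_eq_zero f).1 h')
  · exact fun h' => h.s ((map_eq_zero f).1 ((s_map f e).symm.trans h'))
  · exact fun h' => h.t ((map_eq_zero f).1 ((t_map f e).symm.trans h'))
  · exact fun h' => h.z ((map_eq_zero f).1 h')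
  · intro h'
    rw [s_map] at h'
    refine h.zs ((map_eq_zero f).1 ?_)
    rw [map_add]
    exact h'
  · intro h'
    rw [t_map] at h'
    refine h.zt ((map_eq_zero f).1 ?_)
    rw [map_add]
    exact h'

lemma nb_map {e₂ e₁ : Ed ι F} (h : Nb e₂ e₁) : Nb (e₂.map f) (e₁.map f) := by
  have hA : dA (e₂.map f) (e₁.map f) = f (dA e₂ e₁) := by
    simp only [dA, s_map, t_map, map_add, map_mul]
    rfl
  have hA' : nA (e₂.map f) (e₁.map f) = f (nA e₂ e₁) := by
    simp only [nA, s_map, t_map, map_add, map_mul]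
    rfl
  have hB : dB (e₂.map f) (e₁.map f) = f (dB e₂ e₁) := by
    simp only [dB, s_map, t_map, map_add, map_mul]
    rfl
  have hB' : nB (e₂.map f) (e₁.map f) = f (nB e₂ e₁) := by
    simp only [nB, s_map, t_map, map_add, map_mul]
    rfl
  refine ⟨?_, ?_, ?_, ?_⟩
  · rw [hA]; exact fun h' => h.1 ((map_eq_zero f).1 h')
  · rw [hA']; exact fun h' => h.2.1 ((map_eq_zero f).1 h')
  · rw [hB]; exact fun h' => h.2.2.1 ((map_eq_zero f).1 h')
  · rw [hB']; exact fun h' => h.2.2.2 ((map_eq_zero f).1 h')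

lemma fineC_map {c : List (Ed ι F)} (h : FineC c) : FineC (c.map (Ed.map f)) := by
  induction c with
  | nil => trivial
  | cons e c ih =>
    obtain ⟨h1, h2, h3, h4, h5⟩ := h
    refine ⟨fine_map f h1, ?_, ?_, ?_, ih h5⟩
    · intro e' he'
      obtain ⟨d, hd, rfl⟩ := List.mem_map.1 he'
      rw [w_map, w_map]
      exact fun h' => h2 d hd (f.injective h')
    · intro e' he'
      rw [List.head?_map] at he'
      obtain ⟨d, hd, rfl⟩ := Option.map_eq_some_iff.1 he'
      exact nb_map f (h3 d hd)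
    · rw [vec_map, act_map, w_map]
      intro h'
      apply h4
      apply (map_eq_zero f).1
      rw [← Polynomial.eval_map_apply]
      exact h'

/-- Changing the labels. -/
lemma vec_relab {ι' : Type*} (g : ι → ι') (c : List (Ed ι F)) :
    vec (c.map fun e => (⟨g e.i, e.b, e.κ, e.z⟩ : Ed ι' F)) = vec c := by
  induction c with
  | nil => rfl
  | cons e c ih => rw [List.map_cons, vec, vec, ih]; rfl

end maps

/-! ### The torus -/

section tor

variable {F : Type*} [Field F]

lemma tor_tor {x y : F} (hx : x ≠ 0) (hy : y ≠ 0) (V : V4 F) : (V.tor x).tor y = V.tor (x * y) := by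
  ext1
  · simp only [V4.tor, mul_inv, C_mul]
    ring
  · simp only [V4.tor, C_mul]
    ring
  · rfl
  · rfl

lemma tor_z (V : V4 F) (x : F) : (V.tor x).z = x * V.z := by
  simp [V4.tor, V4.z]

lemma tor_z' (V : V4 F) (x : F) : (V.tor x).z' = V.z' / x := by
  simp [V4.tor, V4.z', div_eq_mul_inv, mul_comm]

lemma tor_Q (V : V4 F) (x : F) : (V.tor x).Q = V.Q := by
  rfl

lemma tor_form {x : F} (hx : x ≠ 0) (V : V4 F) : (V.tor x).form = V.form := by
  have h : (C x⁻¹ * C x : F[X]) = 1 := by
    rw [← C_mul, inv_mul_cancel₀ hx, C_1]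
  simp only [V4.tor, V4.form]
  linear_combination (-(X * V.U * V.U')) * h

lemma tor_deg {n : ℕ} {V : V4 F} (h : V.Deg n) (x : F) : (V.tor x).Deg n := by
  obtain ⟨h1, h2, h3, h4⟩ := h
  refine ⟨fun m hm => ?_, fun m hm => ?_, h3, h4⟩
  · simp [V4.tor, h1 m hm]
  · simp [V4.tor, h2 m hm]

lemma tor_inj {x y : F} {V : V4 F} (hV : V.z ≠ 0) (h : V.tor x = V.tor y) : x = y := by
  have h' := congrArg V4.z h
  rw [tor_z, tor_z] at h'
  exact mul_right_cancel₀ hV h'

lemma N_eq (V : V4 F) : V.N = V.z + V.Q.eval 4 + V.z' := by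
  simp only [V4.N, V4.z, V4.z']
  ring

lemma form_four (V : V4 F) : V.form.eval 4 = V.Q.eval 4 ^ 2 - 4 * V.z * V.z' := by
  have h4 : (X - 4 : F[X]).eval 4 = 0 := by
    have h := Polynomial.eval_ofNat (R := F) (n := 4) (a := 4)
    rw [eval_sub, eval_X, h, sub_self]
  simp only [V4.form, V4.z, V4.z', eval_sub, eval_mul, eval_pow, eval_X]
  rw [eval_sub, eval_X] at h4
  rw [h4]
  ring

/-- The four values of the parameter `x` of the torus for which the total point has the same image:
`1`, the involution `z' / z`, the flat transform, and its composition with the involution. -/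
def Four (V : V4 F) (ρ μ x : F) : Prop :=
  x = 1 ∨ x = V.z' / V.z ∨ x = V.flat ρ μ ∨ x = V.z' / (V.flat ρ μ * V.z)

end tor

end Pool.Agent.Helper83.VN

end CX
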