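import Mathlib
import Pool.Agent.Helper40.CX.H83VN.Cor
import Pool.Agent.Helper40.CX.H83VN.Map
import Pool.Agent.Helper40.CX.Good2

namespace CX

/-!
# The contact data

`V₀` is a four-vector over `k`, belonging to the points `T i`. The pencil is `∏ (X - T i) + s q`.
The roots of the pencil are `t i` (for `s` in a field containing `k`). The contact data are a
polynomial `q`, and `V`, `Xp`, `Op` depending polynomially on `s`, such that `V` satisfies the
equations of a four-vector belonging to the `t i`, and `Op ^ 2` differs from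
`Xp ^ 3 - 3 A Xp - 2 Q (4)` only by a multiple of `s ^ (6 N)`.
-/

set_option linter.unusedSectionVars false

namespace Pool.Agent.Helper83.VN

open VC VF Function Polynomial
open Pool.Agent.Helper51.EW

universe u

/-- The value of a four-vector with coefficients in `k[s]` at an element `s` of a field. -/
noncomputable def V4.ev {k : Type u} [Field k] {K : Type u} [Field K] [Algebra k K] (s : K)
    (V : V4 k[X]) : V4 K :=
  V.map (aeval s : k[X] →ₐ[k] K).toRingHom

/-- The equation of the pencil. -/
def Pen {k : Type u} [Field k] {n : ℕ} (T : Fin n → k) (q : k[X]) {K : Type u} [Field K]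
    [Algebra k K] (s : K) (t : Fin n → K) : Prop :=
  ∏ i, (X - C (t i)) = (∏ i, (X - C (T i))).map (algebraMap k K) + C s * q.map (algebraMap k K)

/-- The contact data. -/
structure Con {k : Type u} [Field k] {W : Wei k} (D : Cor W) {n : ℕ} (T : Fin n → k) (V₀ : V4 k)
    (ξ η : k) where
  q : k[X]
  V : V4 k[X]
  Xp : k[X]
  Op : k[X]
  c : k
  hq : q.degree < n
  hV : V.map (evalRingHom 0) = V₀
  hXp : Xp.eval 0 = ξ
  hOp : Op.eval 0 = η
  dOp : Op.natDegree ≤ 3 * W.N
  ne : q ≠ 0 ∨ V ≠ V₀.map C ∨ Xp ≠ C ξ ∨ Op ≠ C η
  dg : Dg n V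
  form : ∀ (K : Type u) [Field K] [Algebra k K] (s : K) (t : Fin n → K), Pen T q s t →
    (V.ev s).form = ∏ i, (C (D.b (t i) ^ 2) - C (D.d (t i) / 4) * X)
  Q0 : ∀ (K : Type u) [Field K] [Algebra k K] (s : K) (t : Fin n → K), Pen T q s t →
    (V.ev s).Q.eval 0 = ∏ i, D.b (t i)
  eqn : ∀ (K : Type u) [Field K] [Algebra k K] (s : K) (t : Fin n → K), Pen T q s t →
    aeval s Op ^ 2 = aeval s Xp ^ 3 - 3 * (∏ i, D.a (t i)) * aeval s Xp -
      2 * (V.ev s).Q.eval 4 + algebraMap k K c * s ^ (6 * W.N)

/-! ### The norm -/

section nrm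

variable {k : Type u} [Field k] {n : ℕ} {A : Type*} [CommRing A] [Algebra k A]

/-- The polynomial in `s` whose value is the product of the `G (t i)`, `t i` the roots of
`∏ (X - T i) + s ∑ x i X ^ i`. -/
noncomputable def nm (G : k[X]) (T : Fin n → k) (x : Fin n → A) : A[X] :=
  C (algebraMap k A (G.leadingCoeff ^ n)) * (G.roots.map fun c =>
    C (algebraMap k A ((-1) ^ n)) * (C (algebraMap k A (∏ i, (c - T i))) +
      X * C (∑ i : Fin n, x i * algebraMap k A c ^ (i : ℕ)))).prod

lemma nm_map {B : Type*} [CommRing B] [Algebra k B] (f : A →ₐ[k] B) (G : k[X]) (T : Fin n → k)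
    (x : Fin n → A) : (nm G T x).map f.toRingHom = nm G T (fun i => f (x i)) := by
  have hf : ∀ a : A, f.toRingHom a = f a := fun _ => rfl
  have hc : ∀ c : k, f.toRingHom (algebraMap k A c) = algebraMap k B c := fun c => f.commutes c
  unfold nm
  rw [Polynomial.map_mul, Polynomial.map_multiset_prod, Multiset.map_map, Polynomial.map_C, hc]
  congr 3
  funext c
  rw [Function.comp_apply, Polynomial.map_mul, Polynomial.map_C, hc, Polynomial.map_add,
    Polynomial.map_C, hc, Polynomial.map_mul, Polynomial.map_X, Polynomial.map_C, map_sum]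
  congr 4
  refine Finset.sum_congr rfl fun i _ => ?_
  rw [map_mul, map_pow, hc, hf]

lemma nm_degree (G : k[X]) (T : Fin n → k) (x : Fin n → A) :
    (nm G T x).natDegree ≤ G.natDegree := by
  unfold nm
  refine (natDegree_C_mul_le _ _).trans (le_trans ?_ (card_roots' G))
  have key : ∀ m : Multiset k, ((m.map fun c =>
      C (algebraMap k A ((-1) ^ n)) * (C (algebraMap k A (∏ i, (c - T i))) +
      X * C (∑ i : Fin n, x i * algebraMap k A c ^ (i : ℕ)))).prod).natDegree ≤
        Multiset.card m := by
    intro m
    induction m using Multiset.induction_on with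
    | empty => simp
    | cons a m ih =>
      rw [Multiset.map_cons, Multiset.prod_cons, Multiset.card_cons]
      refine natDegree_mul_le.trans ?_
      have h3 : (C (algebraMap k A ((-1) ^ n)) * (C (algebraMap k A (∏ i, (a - T i))) +
          X * C (∑ i : Fin n, x i * algebraMap k A a ^ (i : ℕ)))).natDegree ≤ 1 := by
        refine (natDegree_C_mul_le _ _).trans ?_
        refine (natDegree_add_le _ _).trans (max_le ?_ ?_)
        · rw [natDegree_C]; exact zero_le_one
        · exact (natDegree_mul_C_le _ _).trans natDegree_X_le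
      omega
  exact key _

/-- The product of the values, over an algebraically closed field. -/
lemma prod_val_roots [IsAlgClosed k] (G : k[X]) {K : Type*} [Field K] [Algebra k K]
    (t : Fin n → K) : ∏ i, aeval (t i) G = algebraMap k K (G.leadingCoeff ^ n) *
      (G.roots.map fun c => algebraMap k K ((-1) ^ n) *
        ∏ i, (algebraMap k K c - t i)).prod := by
  have h1 := (IsAlgClosed.splits G).eq_prod_roots
  have h2 : ∀ z : K, aeval z G = algebraMap k K G.leadingCoeff *
      (G.roots.map fun a => z - algebraMap k K a).prod := by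
    intro z
    conv_lhs => rw [h1]
    rw [map_mul, aeval_C, map_multiset_prod, Multiset.map_map]
    congr 3
    funext a
    simp
  rw [Finset.prod_congr rfl fun i _ => h2 (t i), Finset.prod_mul_distrib, Finset.prod_const,
    Finset.card_univ, Fintype.card_fin, map_pow]
  congr 1
  rw [Finset.prod_eq_multiset_prod, Multiset.prod_map_prod_map]
  congr 2
  funext c
  rw [← Finset.prod_eq_multiset_prod, map_pow, map_neg, map_one]
  have h3 : ∀ i : Fin n, t i - algebraMap k K c = (-1) * (algebraMap k K c - t i) := fun i => by ring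
  rw [Finset.prod_congr rfl fun i _ => h3 i, Finset.prod_mul_distrib, Finset.prod_const,
    Finset.card_univ, Fintype.card_fin]

lemma nm_zero [IsAlgClosed k] (G : k[X]) (T : Fin n → k) (x : Fin n → A) :
    (nm G T x).eval 0 = algebraMap k A (∏ i, G.eval (T i)) := by
  have h1 := prod_val_roots G T
  simp only [Algebra.algebraMap_self, RingHom.id_apply, coe_aeval_eq_eval] at h1
  rw [h1, map_mul, map_multiset_prod, Multiset.map_map]
  unfold nm
  rw [eval_mul, eval_C, eval_multiset_prod, Multiset.map_map]
  congr 3
  funext c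
  rw [Function.comp_apply, Function.comp_apply, eval_mul, eval_add, eval_mul, eval_X, eval_C,
    eval_C, zero_mul, add_zero, map_mul]

lemma nm_const [IsAlgClosed k] (G : k[X]) (T : Fin n → k) :
    nm G T (fun _ => (0 : A)) = C (algebraMap k A (∏ i, G.eval (T i))) := by
  have h1 := prod_val_roots G T
  simp only [Algebra.algebraMap_self, RingHom.id_apply, coe_aeval_eq_eval] at h1
  rw [h1, map_mul, map_multiset_prod, Multiset.map_map, C_mul, map_multiset_prod, Multiset.map_map]
  unfold nm
  congr 3
  funext c
  simp

lemma nm_val [IsAlgClosed k] (G : k[X]) (T : Fin n → k) (x : Fin n → k) {K : Type u} [Field K]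
    [Algebra k K] {s : K} {t : Fin n → K}
    (h : Pen T (∑ i : Fin n, C (x i) * X ^ (i : ℕ)) s t) :
    aeval s (nm G T x) = ∏ i, aeval (t i) G := by
  rw [prod_val_roots G t]
  unfold nm
  rw [map_mul, aeval_C, Algebra.algebraMap_self, RingHom.id_apply, map_multiset_prod,
    Multiset.map_map]
  congr 3
  funext c
  have h2 := congrArg (Polynomial.eval (algebraMap k K c)) h
  simp only [eval_prod, eval_sub, eval_X, eval_C, eval_add, eval_mul, Polynomial.map_prod,
    Polynomial.map_sub, Polynomial.map_X, Polynomial.map_C, Polynomial.map_sum, Polynomial.map_mul,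
    Polynomial.map_pow, eval_finsetSum, eval_pow] at h2
  rw [h2]
  simp

end nrm

end Pool.Agent.Helper83.VN

end CX
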