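import Mathlib
import Pool.Agent.Helper40.CX.H83VN.Defs
import Pool.Agent.Helper40.CX.H15VN.Alg
import Pool.Agent.Helper40.CX.H15VN.Exist
import Pool.Agent.Helper40.CX.H15VN.Fam
import Pool.Agent.Helper40.CX.H15VN.Good
import Pool.Agent.Helper40.CX.H15VN.Line
import Pool.Agent.Helper40.CX.H15VN.RD
import Pool.Agent.Helper40.CX.H15VN.Reach
import Pool.Agent.Helper40.CX.H15VN.Res
import Pool.Agent.Helper40.CX.H51VN.FfApp
import Pool.Agent.Helper40.CX.H51VN.Gam
import Pool.Agent.Helper40.CX.Good2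

namespace CX

/-!
# The interface of project VN

Part II (helper15): the algebra of chains, proved in `Helper15/VN`. Part I (helper51): the
functional, proved in `Helper51/VN`. The statements below are what part III (helper83) uses.
-/

namespace Pool.Agent.Helper83.VN

open Polynomial VC VF
open Pool.Agent.Helper51.VN

universe u

/-! ### Part II -/

section algebra

variable {ι ι' : Type*} {F : Type*} [Field F] [Good F]

theorem vec_adj {c c' : List (Ed ι F)} (h : Adj c c') (hc : FineC c) : vec c' = vec c :=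
  Helper15.VN.vec_adj h hc

theorem upc_adj {c c' : List (Ed ι F)} (h : Adj c c') (hc : FineC c) : upc c' = upc c :=
  Helper15.VN.upc_adj h hc

theorem star {c : List (Ed ι F)} (hc : ∀ e ∈ c, e.Fine) :
    (vec c).form = (c.map fun e => C (e.b ^ 2) - C (e.s * e.t) * X).prod :=
  Helper15.VN.star hc

theorem deg_vec (c : List (Ed ι F)) : (vec c).Deg c.length :=
  Helper15.VN.deg_vec c

theorem Q_zero (c : List (Ed ι F)) : (vec c).Q.eval 0 = (c.map fun e => e.b).prod :=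
  Helper15.VN.Q_zero c

theorem nrel {c : List (Ed ι F)} (hc : ∀ e ∈ c, e.Fine) : upc c * (vec c).N = kap c ^ 2 :=
  Helper15.VN.nrel hc

theorem zz {c : List (Ed ι F)} (hc : ∀ e ∈ c, e.Fine) :
    4 * (vec c).z * (vec c).z' = (vec c).Q.eval 4 ^ 2 - kap c ^ 2 :=
  Helper15.VN.zz hc

/-- `FineC (fam c x)` guarantees that no denominator vanishes. -/
theorem vec_fam {c : List (Ed ι F)} {x : F} (hc : FineC c) (hx : x ≠ 0) (h : FineC (fam c x)) :
    vec (fam c x) = (vec c).tor x :=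
  Helper15.VN.vec_fam hc hx h

theorem fam_fam {c : List (Ed ι F)} {x y : F} (hc : FineC c) (h : FineC (fam c x))
    (h' : FineC (fam c (x * y))) : fam (fam c x) y = fam c (x * y) :=
  Helper15.VN.fam_fam hc h h'

theorem fam_one {c : List (Ed ι F)} (hc : FineC c) : fam c 1 = c :=
  Helper15.VN.fam_one hc

theorem uniq {c c' : List (Ed ι F)} (hc : FineC c) (hc' : FineC c')
    (hl : c.map Ed.lab = c'.map Ed.lab) (hv : vec c = vec c') : c = c' :=
  Helper15.VN.uniq hc hc' hl hv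

/-- Every order and all signs are reached by moves. -/
theorem reach_all (c : List (Ed ι F)) (l : List (ι × F × F)) (h : SgnPerm (c.map Ed.lab) l) :
    ∃ c', Relation.ReflTransGen Adj c c' ∧ c'.map Ed.lab = l :=
  Helper15.VN.reach_all c l h

/-- Moves commute with the family. -/
theorem reach_fam {c c' : List (Ed ι F)} {x : F} (hc : GoodC c) (h : GoodC (fam c x))
    (hr : Relation.ReflTransGen Adj c c') :
    Relation.ReflTransGen Adj (fam c x) (fam c' x) :=
  Helper15.VN.reach_fam hc h hr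

end algebra

section places

variable {k : Type u} [Field k] [IsAlgClosed k] [Good k] {K : Type u} [Field K] [Algebra k K]
  {ι ι' : Type*}

theorem fine_of_res (hK : IsFunctionField k K) (v : Place k K) {c : List (Ed ι' K)}
    {c₀ : List (Ed ι k)} (h : List.Forall₂ (Ed.Res v) c c₀) (hc : FineC c₀) : FineC c :=
  Helper15.VN.fine_of_res hK v h hc

theorem vec_res (hK : IsFunctionField k K) (v : Place k K) {c : List (Ed ι' K)}
    {c₀ : List (Ed ι k)} (h : List.Forall₂ (Ed.Res v) c c₀) (hc : FineC c₀) :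
    (vec c).Res v (vec c₀) :=
  Helper15.VN.vec_res hK v h hc

theorem fam_res (hK : IsFunctionField k K) (v : Place k K) {c : List (Ed ι' K)}
    {c₀ : List (Ed ι k)} (h : List.Forall₂ (Ed.Res v) c c₀) {x : K} {x₀ : k} (hx : IsRes v x x₀)
    (hc : FineC c₀) (hf : FineC (fam c₀ x₀)) :
    List.Forall₂ (Ed.Res v) (fam c x) (fam c₀ x₀) :=
  Helper15.VN.fam_res hK v h hx hc hf

/-- Existence of the factorisation over a function field, given a place with good value. -/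
theorem exists_chain (hK : IsFunctionField k K) (v : Place k K) (V : V4 K)
    (l : List (ι' × K × K))
    (hV : V.form = (l.map fun p => C (p.2.1 ^ 2) - C ((p.2.1 ^ 2 - p.2.2 ^ 2) / 4) * X).prod)
    (hQ : V.Q.eval 0 = (l.map fun p => p.2.1).prod) (hd : V.Deg l.length) {c₀ : List (Ed ι k)}
    (hl : List.Forall₂ (fun p (e : Ed ι k) => IsRes v p.2.1 e.b ∧ IsRes v p.2.2 e.κ) l c₀)
    (hc : FineC c₀) (hres : V.Res v (vec c₀)) :
    ∃ c : List (Ed ι' K), c.map Ed.lab = l ∧ vec c = V ∧ List.Forall₂ (Ed.Res v) c c₀ :=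
  Helper15.VN.exists_chain hK v V l hV hQ hd hl hc hres

/-- A line of chains: almost all of them are good. -/
theorem good_line (c : List (Ed ι k)) (hb : ∀ e ∈ c, e.b ≠ 0 ∧ e.κ ≠ 0 ∧ e.s ≠ 0 ∧ e.t ≠ 0)
    (hw : (c.map Ed.w).Nodup) :
    ∃ B : Set k, B.Finite ∧ ∀ τ, τ ∉ B →
      GoodC (c.map fun e => (⟨e.i, e.b, e.κ, e.z + τ⟩ : Ed ι k)) ∧
      (c ≠ [] → (vec (c.map fun e => (⟨e.i, e.b, e.κ, e.z + τ⟩ : Ed ι k))).z ≠ 0 ∧
        (vec (c.map fun e => (⟨e.i, e.b, e.κ, e.z + τ⟩ : Ed ι k))).z' ≠ 0) :=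
  Helper15.VN.good_line' c hb hw

/-- The torus orbit of a good chain: almost all chains are good. -/
theorem good_fam {c : List (Ed ι k)} (hc : GoodC c) :
    ∃ B : Set k, B.Finite ∧ ∀ x, x ∉ B → GoodC (fam c x) :=
  Helper15.VN.good_fam hc

end places

/-! ### Part I -/

section functional

variable {k : Type u} [Field k] [IsAlgClosed k] [Good k] {ι : Type} [Fintype ι] [DecidableEq ι]

variable {ω : k} {θ : ℂ} {a b : ι → k} {ψ : (ι → k × k) → ℂ}

theorem gf_eq (hω : Cub ω θ) (hψ : Fun a b ψ) {z v' : ι → k} {v : k}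
    (h : ∀ i, OnX (b i) (dsc a b i) (z i) (v' i)) (hv : ∏ i, v' i = v) :
    GF ω θ a b ψ z v = FF ω θ a (dsc a b) ψ z v' :=
  Helper51.VN.gf_eq hω hψ h hv

theorem gf_omega (hω : Cub ω θ) (hψ : Fun a b ψ) (z : ι → k) (v : k) [Nonempty ι] :
    GF ω θ a b ψ z (ω * v) = θ * GF ω θ a b ψ z v :=
  Helper51.VN.gf_omega hω hψ z v

theorem gf_neg (hω : Cub ω θ) (hψ : Fun a b ψ) (z : ι → k) (v : k) [Nonempty ι] :
    GF ω θ a b ψ z (-v) = -GF ω θ a b ψ z v :=
  Helper51.VN.gf_neg hω hψ z v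

theorem gf_adj (hω : Cub ω θ) (hψ : Fun a b ψ) {c c' : List (Ed ι k)}
    (hc : IsChain a b c) (hf : FineC c) (hf' : FineC c') (h : Adj c c') (v : k) :
    GF ω θ a b ψ (zof c') v = -GF ω θ a b ψ (zof c) v :=
  Helper51.VN.gf_adj hω hψ hc hf h v

/-- Lemma P. -/
theorem gf_star (hω : Cub ω θ) (hψ : Fun a b ψ) {c : List (Ed ι k)} (hc : IsChain a b c)
    (hf : FineC c) (hz : (vec c).z ≠ 0) (hf' : FineC (fam c ((vec c).z' / (vec c).z))) (v : k) :
    GF ω θ a b ψ (zof (fam c ((vec c).z' / (vec c).z))) v = -GF ω θ a b ψ (zof c) v :=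
  Helper51.VN.gf_star hω hψ hc hf hz hf' v

/-- The facts on chains used in part I. -/
theorem partII (ι : Type) (F : Type u) [Field F] [Good F] : PartII ι F where
  vec_adj := vec_adj
  zz := zz
  vec_fam := vec_fam
  fam_fam := fam_fam
  uniq := uniq
  reach_all := reach_all
  reach_fam := reach_fam

/-- The function `Gam` depends, up to the sign of the permutation of the labels, only on the
four-vector up to the torus and on the total point. -/
theorem gam_eq {n : ℕ} {a b : Fin n → k} {ψ : (Fin n → k × k) → ℂ} (hω : Cub ω θ)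
    (hn : n ≠ 0) (hψ : Fun a b ψ) {c c' : List (Ed (Fin n) k)} (hc : IsChain a b c)
    (hc' : IsChain a b c') (hf' : FineC c') {x μ μ' : k} (hx : x ≠ 0)
    (hv : vec c' = (vec c).tor x) (hμ : μ ≠ 0) (hμ' : μ' ≠ 0) (hN : μ ^ 6 = (vec c).N)
    (hN' : μ' ^ 6 = (vec c').N) (hξ : xi (∏ i, a i) μ = xi (∏ i, a i) μ')
    (hy : (vec c).y μ = (vec c').y μ') (hz : (vec c).z ≠ 0)
    (hg : ∀ x₁ : k, (x₁ = 1 ∨ x₁ = (vec c).flat (rho a c) μ) →
      GoodC (fam c x₁) ∧ GoodC (fam c (x₁ * ((vec (fam c x₁)).z' / (vec (fam c x₁)).z))))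
    {σ σ' : Equiv.Perm (Fin n)} (hσ : c.map (fun e => e.i) = List.ofFn σ)
    (hσ' : c'.map (fun e => e.i) = List.ofFn σ') :
    (((Equiv.Perm.sign σ' : ℤˣ) : ℤ) : ℂ) * Gam ω θ a b ψ c' μ' =
      (((Equiv.Perm.sign σ : ℤˣ) : ℤ) : ℂ) * Gam ω θ a b ψ c μ :=
  Helper51.VN.gam_eq (partII (Fin n) k) hω hn hψ hc hc' hf' hx hv hμ hμ' hN hN' hξ hy hz hg hσ hσ'

theorem gf_zero_of_gam (hω : Cub ω θ) (hψ : Fun a b ψ) {c : List (Ed ι k)} [Nonempty ι]
    {μ : k} (h0 : Gam ω θ a b ψ c μ = 0) (h1 : Gam ω θ a b ψ c (ω * μ) = 0) :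
    GF ω θ a b ψ (zof c) (rho a c / μ) = 0 :=
  Helper51.VN.gf_zero_of_gam hω hψ h0 h1

/-- Extension of the vanishing along a curve. -/
theorem ff_app (hω : Cub ω θ) (hψ : Fun a b ψ) {K : Type u} [Field K] [Algebra k K]
    (hK : IsFunctionField k K) (z : ι → K) (w₀ : Place k K) (z₀ : ι → k)
    (hz : ∀ i, IsRes w₀ (z i) (z₀ i)) {T : Set (Place k K)} (hT : T.Finite)
    (h : ∀ w, w ∉ T → ∀ ζ : ι → k, (∀ i, IsRes w (z i) (ζ i)) → ∀ v : ι → k,
      (∀ i, OnX (b i) (dsc a b i) (ζ i) (v i)) → FF ω θ a (dsc a b) ψ ζ v = 0) (v : ι → k)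
    (hv : ∀ i, OnX (b i) (dsc a b i) (z₀ i) (v i)) : FF ω θ a (dsc a b) ψ z₀ v = 0 :=
  Helper51.VN.ff_app hω hψ hK z w₀ z₀ hz hT h v hv

/-- Fourier inversion. -/
theorem psi_zero (hω : Cub ω θ) (hψ : Fun a b ψ) (hD : ∀ i, dsc a b i ≠ 0)
    (ha : ∀ i, a i ≠ 0)
    (h : ∀ z v : ι → k, (∀ i, OnX (b i) (dsc a b i) (z i) (v i)) → FF ω θ a (dsc a b) ψ z v = 0)
    (p : ι → k × k) (hp : ∀ i, OnE (a i) (b i) (p i).1 (p i).2) : ψ p = 0 :=
  Helper51.VN.psi_zero hω hψ hD ha h p hp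

end functional

end Pool.Agent.Helper83.VN

end CX
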