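import Mathlib
import Pool.Agent.Helper40.CX.H83VN.Fld
import Pool.Agent.Helper40.CX.Good2

namespace CX

/-!
# Block VN-FR4: the branches

`four_of`: `m ^ 2 = μ ^ 2` or `m ^ 2 = A / μ ^ 2 = (ρ / μ) ^ 2`, so `m = ± μ` or `m = ± ρ / μ`, and
`m ^ 3 ε = ± μ ^ 3` or `± (ρ / μ) ^ 3`; with `z = (μ ^ 6 - b + μ ^ 3 y) / 2`,
`z' = (μ ^ 6 - b - μ ^ 3 y) / 2` (`b = Q (4)`, `y = (z - z') / μ ^ 3`, `N_eq`) these are the four
cases. In the last case use `y ^ 2 = μ ^ 6 + A ^ 3 / μ ^ 6 - 2 b`, which follows from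
`4 z z' = b ^ 2 - A ^ 3`.
`rho_sq`: the labels of the edges of a chain are the elements of `Fin n`, each once, so
`kap c ^ 2 = ∏ κ ^ 2 = ∏ a i ^ 3`.
-/

set_option linter.unusedSectionVars false

namespace Pool.Agent.Helper83.VN

open VC VF Function Polynomial
open Pool.Agent.Helper51.EW Pool.Agent.Helper51.VN

universe u

variable {k : Type u} [Field k] [IsAlgClosed k] [Good k] {W : Wei k} {D : Cor W} {n : ℕ}
  {T : Fin n → k} {V₀ : V4 k} {ξ η : k} {C : Con D T V₀ ξ η} {c : List (Ed (Fin n) k)} {μ : k}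

/-- The branches: algebra. -/
theorem four_of {F : Type*} [Field F] [Good F] {V : V4 F} {A ρ μ ε m : F} (hA : A ≠ 0)
    (hρ : ρ ^ 2 = A) (hz : V.z ≠ 0) (hz' : V.z' ≠ 0) (hμ : μ ≠ 0) (hN : μ ^ 6 = V.N)
    (hzz : 4 * V.z * V.z' = V.Q.eval 4 ^ 2 - A ^ 3) (hε : ε = 1 ∨ ε = -1) (hm : m ≠ 0)
    (hξ : xi A m = xi A μ) :
    Four V ρ μ ((m ^ 6 - V.Q.eval 4 + m ^ 3 * (ε * V.y μ)) / 2 / V.z) := by
  have h2 : (2 : F) ≠ 0 := two_ne_zero
  have hNe := N_eq V
  rw [← hN] at hNe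
  set z := V.z with hzd
  set z' := V.z' with hzd'
  set b := V.Q.eval 4 with hb
  have hy : μ ^ 3 * V.y μ = z - z' := by
    unfold V4.y
    rw [← hzd, ← hzd']
    field_simp
  have hε2 : ε ^ 2 = 1 := by rcases hε with h | h <;> rw [h] <;> ring
  -- the two cases
  have hξ' : (m ^ 2 - μ ^ 2) * (m ^ 2 * μ ^ 2 - A) = 0 := by
    unfold xi at hξ
    field_simp at hξ
    linear_combination hξ
  rcases mul_eq_zero.1 hξ' with h | h
  · have hm2 : m ^ 2 = μ ^ 2 := sub_eq_zero.1 h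
    have h6 : m ^ 6 = μ ^ 6 := by
      linear_combination (m ^ 4 + m ^ 2 * μ ^ 2 + μ ^ 4) * hm2
    have h3 : (m ^ 3 * ε) ^ 2 = (μ ^ 3) ^ 2 := by
      linear_combination m ^ 6 * hε2 + h6
    rcases sq_eq_sq_iff_eq_or_eq_neg.1 h3 with h4 | h4
    · left
      rw [div_div, div_eq_one_iff_eq (mul_ne_zero h2 hz), h6]
      linear_combination hNe + V.y μ * h4 + hy
    · right; left
      rw [div_div, div_eq_div_iff (mul_ne_zero h2 hz) hz, h6]
      linear_combination z * (hNe + V.y μ * h4 - hy)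
  · have hm2 : m ^ 2 * μ ^ 2 = ρ ^ 2 := by rw [hρ]; exact sub_eq_zero.1 h
    set r := ρ / μ with hr
    have hrμ : r * μ = ρ := div_mul_cancel₀ _ hμ
    have hm2' : m ^ 2 = r ^ 2 := by
      have : m ^ 2 * μ ^ 2 = r ^ 2 * μ ^ 2 := by rw [hm2, ← hrμ]; ring
      exact mul_right_cancel₀ (pow_ne_zero 2 hμ) this
    have h6 : m ^ 6 = r ^ 6 := by
      linear_combination (m ^ 4 + m ^ 2 * r ^ 2 + r ^ 4) * hm2'
    have h3 : (m ^ 3 * ε) ^ 2 = (r ^ 3) ^ 2 := by
      linear_combination m ^ 6 * hε2 + h6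
    rcases sq_eq_sq_iff_eq_or_eq_neg.1 h3 with h4 | h4
    · right; right; left
      unfold V4.flat
      rw [← hzd, ← hb, ← hr, div_div, h6]
      congr 1
      linear_combination V.y μ * h4
    · right; right; right
      have hrA : r ^ 6 * μ ^ 6 = A ^ 3 := by
        rw [← hρ, ← hrμ]; ring
      have hy2 : μ ^ 6 * V.y μ ^ 2 = (z - z') ^ 2 := by rw [← hy]; ring
      have hkey : ((r ^ 6 - b + r ^ 3 * V.y μ) / 2) * ((r ^ 6 - b - r ^ 3 * V.y μ) / 2) = z * z' := by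
        have h7 : μ ^ 6 * ((r ^ 6 - b) ^ 2 - r ^ 6 * V.y μ ^ 2) = μ ^ 6 * (4 * z * z') := by
          have h8 : (z - z') ^ 2 = (μ ^ 6 - b) ^ 2 - (b ^ 2 - A ^ 3) := by
            rw [← hzz, hNe]; ring
          have h9 : μ ^ 6 * ((r ^ 6 - b) ^ 2 - r ^ 6 * V.y μ ^ 2) =
              μ ^ 6 * (r ^ 6 - b) ^ 2 - r ^ 6 * (z - z') ^ 2 := by
            rw [← hy2]; ring
          rw [h9, h8, hzz, ← hrA]
          ring
        have h10 := mul_left_cancel₀ (pow_ne_zero 6 hμ) h7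
        have h11 : ((r ^ 6 - b + r ^ 3 * V.y μ) / 2) * ((r ^ 6 - b - r ^ 3 * V.y μ) / 2) =
            ((r ^ 6 - b) ^ 2 - r ^ 6 * V.y μ ^ 2) / 4 := by
          field_simp
          ring
        rw [h11, h10]
        field_simp
      have hfl : V.flat ρ μ * z = (r ^ 6 - b + r ^ 3 * V.y μ) / 2 := by
        unfold V4.flat
        rw [← hzd, ← hb, ← hr]
        field_simp
      have hne : (r ^ 6 - b + r ^ 3 * V.y μ) / 2 ≠ 0 := by
        intro h0
        rw [h0, zero_mul] at hkey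
        exact mul_ne_zero hz hz' hkey.symm
      rw [hfl, h6, div_eq_div_iff hz hne]
      have h12 : r ^ 6 - b + m ^ 3 * (ε * V.y μ) = r ^ 6 - b - r ^ 3 * V.y μ := by
        linear_combination V.y μ * h4
      rw [h12]
      linear_combination hkey

/-- For a chain: `ρ ^ 2 = A`, `κ ^ 2 = A ^ 3`. -/
lemma rho_sq {a b : Fin n → k} {c : List (Ed (Fin n) k)} (hc : IsChain a b c)
    (ha : ∀ i, a i ≠ 0) : rho a c ^ 2 = ∏ i, a i ∧ kap c ^ 2 = (∏ i, a i) ^ 3 := by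
  have h1 : kap c ^ 2 = (∏ i, a i) ^ 3 := by
    unfold kap
    have h0 : (c.map fun e => e.κ).prod ^ 2 = (c.map fun e => e.κ ^ 2).prod := by
      rw [pow_two, ← List.prod_map_mul]
      simp only [pow_two]
    rw [h0, ← Finset.prod_pow]
    have h2 : (c.map fun e => e.κ ^ 2) = (c.map fun e => e.i).map fun i => a i ^ 3 := by
      rw [List.map_map]
      exact List.map_congr_left fun e he => hc.hκ e he
    rw [h2, ← List.prod_toFinset _ hc.nodup]
    refine Finset.prod_congr ?_ fun _ _ => rfl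
    ext i
    simp only [List.mem_toFinset, Finset.mem_univ, iff_true]
    exact hc.all i
  refine ⟨?_, h1⟩
  have h3 : (∏ i, a i) ≠ 0 := Finset.prod_ne_zero_iff.2 fun i _ => ha i
  unfold rho
  rw [div_pow, h1, div_eq_iff (pow_ne_zero 2 h3)]
  ring

end Pool.Agent.Helper83.VN

end CX
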