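import Mathlib
import Pool.Agent.Helper40.CX.H83VN.F1ex
import Pool.Agent.Helper40.CX.H83VN.F1r
import Pool.Agent.Helper40.CX.H83VN.At0
import Pool.Agent.Helper40.CX.H83VN.F1c
import Pool.Agent.Helper40.CX.Good2

namespace CX

/-!
# Block VN-F2EX: the second function field exists

`exists_fl1` gives `K₁`; `exists_place` (`Helper26/VC/Main3.lean`) gives a place over `s = 0`;
`exists_atW`, `exists_atK`, `exists_dd` give the chains over `K₁`. `VF.exists_roots` gives a
function field `K ⊃ K₁` with sixth roots of the `Υ` of the edges of both chains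
(`zof d i + b + D / (4 zof d i)`); all data are mapped to `K` by `algebraMap K₁ K` (`fineC_map`,
`vec_map`, `tor_map`). The product of the sixth roots: `nrel` (Iface) and `Fl1.tot` give
`(∏ v i) ^ 6 * μ ^ 6 = κ ^ 2 = (ρ / μ) ^ 6 μ ^ 6`, so `∏ v i = ζ ρ / μ` with `ζ ^ 6 = 1`, `ζ ∈ k`
(`exists_root_of_unity`, `Helper51/EW/Field.lean`); divide `v 0` by `ζ`. The same for `v'`
with `(ρ / μ)` instead of `μ`.
-/

set_option linter.unusedSectionVars false

namespace Pool.Agent.Helper83.VN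

open VC VF Function Polynomial
open Pool.Agent.Helper51.EW Pool.Agent.Helper51.VN

universe u

variable {k : Type u} [Field k] [IsAlgClosed k] [Good k] {W : Wei k} {D : Cor W} {n : ℕ}
  {T : Fin n → k} {V₀ : V4 k} {ξ η : k} {C : Con D T V₀ ξ η} {c : List (Ed (Fin n) k)} {μ : k}

section general

/-- a list with the labels of `List.ofFn` -/
private lemma ofFn_of_lab {F : Type*} {d : List (Ed (Fin n) F)} {B K : Fin n → F}
    (h : d.map Ed.lab = List.ofFn fun i => (i, B i, K i)) :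
    ∃ z : Fin n → F, d = List.ofFn fun i => (⟨i, B i, K i, z i⟩ : Ed (Fin n) F) := by
  have hlen : d.length = n := by
    have h1 := congrArg List.length h
    rwa [List.length_map, List.length_ofFn] at h1
  refine ⟨fun i => (d.get ⟨i, by rw [hlen]; exact i.2⟩).z, ?_⟩
  apply List.ext_getElem
  · exact hlen.trans (List.length_ofFn).symm
  · intro j h1 h2
    have hj : j < n := by rw [hlen] at h1; exact h1
    have h3 : (d.map Ed.lab)[j]'(by rw [List.length_map]; exact h1) =
        (List.ofFn fun i => (i, B i, K i))[j]'(by rw [List.length_ofFn]; exact hj) := by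
      simp only [h]
    rw [List.getElem_map, List.getElem_ofFn] at h3
    rw [List.getElem_ofFn]
    simp only [Ed.lab, Prod.mk.injEq] at h3
    obtain ⟨e1, e2, e3⟩ := h3
    ext
    · exact congrArg Fin.val e1
    · exact e2
    · exact e3
    · rfl

private lemma zof_ofFn {F : Type*} [Field F] (B K z : Fin n → F) (i : Fin n) :
    zof (List.ofFn fun i => (⟨i, B i, K i, z i⟩ : Ed (Fin n) F)) i = z i := by
  unfold zof
  rw [List.map_ofFn, List.sum_ofFn]
  have h : ∀ j : Fin n, ((fun e : Ed (Fin n) F => if e.i = i then e.z else 0) ∘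
      fun i => (⟨i, B i, K i, z i⟩ : Ed (Fin n) F)) j = if j = i then z j else 0 := fun j => rfl
  rw [Finset.sum_congr rfl fun j _ => h j, Finset.sum_ite_eq' Finset.univ i z,
    if_pos (Finset.mem_univ i)]

private lemma mem_fine {F : Type*} [Field F] {d : List (Ed (Fin n) F)} (h : FineC d) :
    ∀ e ∈ d, e.Fine := by
  induction d with
  | nil => intro e he; simp at he
  | cons a d ih =>
    intro e he
    rcases List.mem_cons.1 he with rfl | he
    · exact h.1
    · exact ih h.2.2.2.2 e he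

/-- adjusting the product -/
private lemma adjust {K : Type*} [Field K] (hn : n ≠ 0) (y : Fin n → K) (hy : ∀ i, y i ≠ 0) (p : K)
    (h : (∏ i, y i) ^ 6 = p ^ 6) : ∃ v : Fin n → K, (∀ i, v i ^ 6 = y i ^ 6) ∧ ∏ i, v i = p := by
  have hP : (∏ i, y i) ≠ 0 := Finset.prod_ne_zero_iff.2 fun i _ => hy i
  set i₀ : Fin n := ⟨0, Nat.pos_of_ne_zero hn⟩
  have hζ : (p / ∏ i, y i) ^ 6 = 1 := by
    rw [div_pow, ← h, div_self (pow_ne_zero _ hP)]
  refine ⟨update y i₀ (p / (∏ i, y i) * y i₀), ?_, ?_⟩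
  · intro i
    by_cases hi : i = i₀
    · subst hi
      rw [update_self, mul_pow, hζ, one_mul]
    · rw [update_of_ne hi]
  · have h1 : ∏ i, update y i₀ (p / (∏ i, y i) * y i₀) i = p / (∏ i, y i) * ∏ i, y i := by
      rw [Finset.prod_update_of_mem (Finset.mem_univ _), mul_assoc]
      congr 1
      rw [← Finset.mul_prod_erase Finset.univ y (Finset.mem_univ i₀)]
      congr 1
      apply Finset.prod_congr _ (fun _ _ => rfl)
      ext i
      simp
    rw [h1, div_mul_cancel₀ _ hP]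

end general

section base

variable {K L : Type u} [Field K] [Algebra k K] [Field L] [Algebra k L] [Algebra K L]
  [IsScalarTower k K L]

private lemma a_base (t : K) : D.a (algebraMap K L t) = algebraMap K L (D.a t) := by
  unfold Cor.a
  exact aeval_algebraMap_apply L t D.al

private lemma b_base (t : K) : D.b (algebraMap K L t) = algebraMap K L (D.b t) := by
  unfold Cor.b
  exact aeval_algebraMap_apply L t D.be

private lemma d_base (t : K) : D.d (algebraMap K L t) = algebraMap K L (D.d t) := by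
  unfold Cor.d
  rw [a_base, b_base, map_sub, map_pow, map_pow]

/-- extension of the function field -/
private noncomputable def bc (F : Fl1 C K) (hL : IsFunctionField k L) : Fl1 C L where
  hK := hL
  s := algebraMap K L F.s
  tr := (transcendental_algebraMap_iff (algebraMap K L).injective).2 F.tr
  t i := algebraMap K L (F.t i)
  κ i := algebraMap K L (F.κ i)
  y := algebraMap K L F.y
  μ := algebraMap K L F.μ
  pen := by
    have h := congrArg (Polynomial.map (algebraMap K L)) F.pen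
    rw [Polynomial.map_prod, Polynomial.map_add, Polynomial.map_mul, Polynomial.map_map,
      Polynomial.map_map, ← IsScalarTower.algebraMap_eq, Polynomial.map_C] at h
    unfold Pen
    rw [← h]
    refine Finset.prod_congr rfl fun i _ => ?_
    rw [Polynomial.map_sub, map_X, Polynomial.map_C]
  hκ i := by rw [← map_pow, F.hκ, a_base, map_pow]
  hy := by
    rw [← map_pow, F.hy, map_sub, map_pow, map_mul, map_pow, aeval_algebraMap_apply,
      ← IsScalarTower.algebraMap_apply]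
  hyc h := by rw [F.hyc h, aeval_algebraMap_apply]
  hμ := (_root_.map_ne_zero _).2 F.hμ
  hξ := by
    rw [aeval_algebraMap_apply, ← F.hξ, map_add, map_pow, map_div₀, map_prod, map_pow]
    simp only [a_base]

private lemma bc_A (F : Fl1 C K) (hL : IsFunctionField k L) :
    (bc F hL).A = algebraMap K L F.A := by
  unfold Fl1.A
  rw [map_prod]
  exact Finset.prod_congr rfl fun i _ => a_base _

private lemma bc_rho (F : Fl1 C K) (hL : IsFunctionField k L) :
    (bc F hL).ρ = algebraMap K L F.ρ := by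
  unfold Fl1.ρ
  rw [bc_A, map_div₀, map_prod]
  rfl

private lemma bc_V (F : Fl1 C K) (hL : IsFunctionField k L) :
    (bc F hL).V = F.V.map (algebraMap K L) := by
  unfold Fl1.V V4.ev
  rw [V4.map_map]
  congr 1
  ext x
  · simp [bc, ← IsScalarTower.algebraMap_apply]
  · simp [bc]

private lemma bc_zT (F : Fl1 C K) (hL : IsFunctionField k L) (m : K) :
    (bc F hL).zT (algebraMap K L m) = algebraMap K L (F.zT m) := by
  have h : (bc F hL).V.Q.eval 4 = algebraMap K L (F.V.Q.eval 4) := by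
    rw [bc_V]
    have h4 : (4 : L) = algebraMap K L 4 := by rw [map_ofNat]
    show (F.V.Q.map (algebraMap K L)).eval 4 = _
    rw [h4, Polynomial.eval_map_apply]
  unfold Fl1.zT
  rw [h, map_div₀, map_add, map_sub, map_mul, map_pow, map_pow, map_ofNat]
  rfl

private lemma bc_Vt (F : Fl1 C K) (hL : IsFunctionField k L) (m : K) :
    (bc F hL).Vt (algebraMap K L m) = (F.Vt m).map (algebraMap K L) := by
  unfold Fl1.Vt
  rw [tor_map, bc_zT, bc_V, z_map, map_div₀]

end base

theorem exists_fl2 (H : Chn D T V₀ ξ η c μ) (C : Con D T V₀ ξ η) (hN : 1 ≤ W.N) (hn : n ≠ 0) :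
    ∃ (K : Type u) (_ : Field K) (_ : Algebra k K), Nonempty (Fl2 C K) := by
  obtain ⟨K₁, _, _, ⟨F⟩⟩ := exists_fl1 C H.ha
  obtain ⟨w, hw⟩ := exists_place F.hK F.tr
  have hs : IsRes w F.s 0 := by
    unfold IsRes
    rw [map_zero, sub_zero]
    exact hw
  obtain ⟨π, κ₀, ε, m, hat⟩ := exists_atW C hN H.ha F w hs
  obtain ⟨c₁, hc₁⟩ := exists_atK H hat.hκ hat.hε hat.hm hat.hξ
  obtain ⟨d, d', hl, hl', hf, hf', hv, hv', -, -⟩ := exists_dd H F w hat hc₁
  obtain ⟨z, hz⟩ := ofFn_of_lab (B := fun i => D.b (F.t i)) (K := F.κ) hl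
  obtain ⟨z', hz'⟩ := ofFn_of_lab (B := fun i => D.b (F.t i)) (K := F.κ) hl'
  have hc0 : CX.Good K₁ := CX.Good.ext k
  obtain ⟨hA0, hρ, hκA⟩ := F.A_ne H.ha
  obtain ⟨-, -, -, -, -, hN1⟩ := F.tot H.ha H.hz H.hz' (m := F.μ) (Or.inl rfl)
  obtain ⟨hm2, -, -, -, -, hN2⟩ := F.tot H.ha H.hz H.hz' (m := F.ρ / F.μ) (Or.inr rfl)
  have hρ0 : F.ρ ≠ 0 := by
    intro h0
    rw [h0] at hρ
    apply hA0
    rw [← hρ]
    ring
  -- the values of `Υ`
  have hups : ∀ (ζ : Fin n → K₁) (e : List (Ed (Fin n) K₁)),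
      e = List.ofFn (fun i => (⟨i, D.b (F.t i), F.κ i, ζ i⟩ : Ed (Fin n) K₁)) → FineC e →
      (∀ i, ζ i ≠ 0 ∧ ζ i + D.b (F.t i) + D.d (F.t i) / (4 * ζ i) ≠ 0) ∧
      (∏ i, (ζ i + D.b (F.t i) + D.d (F.t i) / (4 * ζ i))) * (vec e).N = F.A ^ 3 := by
    intro ζ e he hfe
    have hfin := mem_fine hfe
    have hmem : ∀ i, (⟨i, D.b (F.t i), F.κ i, ζ i⟩ : Ed (Fin n) K₁) ∈ e := by
      intro i
      rw [he, List.mem_ofFn]
      exact ⟨i, rfl⟩
    have hval : ∀ i, (⟨i, D.b (F.t i), F.κ i, ζ i⟩ : Ed (Fin n) K₁).ups =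
        ζ i + D.b (F.t i) + D.d (F.t i) / (4 * ζ i) := by
      intro i
      have h0 := (hfin _ (hmem i)).z
      change ζ i ≠ 0 at h0
      have hd : D.d (F.t i) = D.b (F.t i) ^ 2 - F.κ i ^ 2 := by
        rw [F.hκ]
        rfl
      rw [hd]
      simp only [Ed.ups, Ed.s, Ed.t]
      field_simp
      ring
    refine ⟨fun i => ⟨(hfin _ (hmem i)).z, ?_⟩, ?_⟩
    · rw [← hval]
      have h1 := hfin _ (hmem i)
      exact div_ne_zero (mul_ne_zero h1.zs h1.zt) h1.z
    · have h1 := nrel hfin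
      have h2 : upc e = ∏ i, (ζ i + D.b (F.t i) + D.d (F.t i) / (4 * ζ i)) := by
        unfold upc
        rw [he, List.map_ofFn, List.prod_ofFn]
        exact Finset.prod_congr rfl fun i _ => hval i
      have h3 : kap e = ∏ i, F.κ i := by
        unfold kap
        rw [he, List.map_ofFn, List.prod_ofFn]
        rfl
      rw [← h2, h1, h3, hκA]
  obtain ⟨hu1, hu2⟩ := hups z d hz hf
  obtain ⟨hu1', hu2'⟩ := hups z' d' hz' hf'
  rw [hv, hN1] at hu2
  rw [hv', hN2] at hu2'
  -- the sixth roots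
  obtain ⟨K, _, _, _, _, y, hK, hy⟩ := VF.exists_roots F.hK (m := 6) (by norm_num)
    (Fin.append (fun i => z i + D.b (F.t i) + D.d (F.t i) / (4 * z i))
      (fun i => z' i + D.b (F.t i) + D.d (F.t i) / (4 * z' i)))
  have hy1 : ∀ i : Fin n, y (Fin.castAdd n i) ^ 6 =
      algebraMap K₁ K (z i + D.b (F.t i) + D.d (F.t i) / (4 * z i)) := by
    intro i
    rw [hy, Fin.append_left]
  have hy2 : ∀ i : Fin n, y (Fin.natAdd n i) ^ 6 =
      algebraMap K₁ K (z' i + D.b (F.t i) + D.d (F.t i) / (4 * z' i)) := by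
    intro i
    rw [hy, Fin.append_right]
  have hne : ∀ (x : K) (a : K₁), a ≠ 0 → x ^ 6 = algebraMap K₁ K a → x ≠ 0 := by
    rintro x a ha hx rfl
    rw [zero_pow (by norm_num)] at hx
    exact ha ((_root_.map_eq_zero _).1 hx.symm)
  obtain ⟨v, hv6, hvp⟩ := adjust hn (fun i => y (Fin.castAdd n i))
    (fun i => hne _ _ (hu1 i).2 (hy1 i)) (algebraMap K₁ K (F.ρ / F.μ)) (by
      rw [← Finset.prod_pow, Finset.prod_congr rfl fun i _ => hy1 i, ← map_prod, ← map_pow]
      congr 1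
      have h1 : F.μ ^ 6 ≠ 0 := pow_ne_zero _ F.hμ
      rw [div_pow, eq_div_iff h1, hu2, ← hρ]
      ring)
  obtain ⟨v', hv6', hvp'⟩ := adjust hn (fun i => y (Fin.natAdd n i))
    (fun i => hne _ _ (hu1' i).2 (hy2 i)) (algebraMap K₁ K F.μ) (by
      rw [← Finset.prod_pow, Finset.prod_congr rfl fun i _ => hy2 i, ← map_prod, ← map_pow]
      congr 1
      have h1 : (F.ρ / F.μ) ^ 6 ≠ 0 := pow_ne_zero _ hm2
      have h2 : F.μ ^ 6 * (F.ρ / F.μ) ^ 6 = F.A ^ 3 := by
        rw [← mul_pow, mul_div_cancel₀ _ F.hμ, ← hρ]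
        ring
      exact mul_right_cancel₀ h1 (hu2'.trans h2.symm))
  have hlab : (bc F hK).lab = List.ofFn fun i => (i, algebraMap K₁ K (D.b (F.t i)),
      algebraMap K₁ K (F.κ i)) := by
    unfold Fl1.lab
    congr 1
    funext i
    show (i, D.b (algebraMap K₁ K (F.t i)), algebraMap K₁ K (F.κ i)) = _
    rw [b_base]
  have hmapd : ∀ (ζ : Fin n → K₁),
      (List.ofFn (fun i => (⟨i, D.b (F.t i), F.κ i, ζ i⟩ : Ed (Fin n) K₁))).map
        (Ed.map (algebraMap K₁ K)) = List.ofFn (fun i => (⟨i, algebraMap K₁ K (D.b (F.t i)),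
          algebraMap K₁ K (F.κ i), algebraMap K₁ K (ζ i)⟩ : Ed (Fin n) K)) := by
    intro ζ
    rw [List.map_ofFn]
    rfl
  have hOn : ∀ (ζ : Fin n → K₁) (i : Fin n) (x x₁ : K), ζ i ≠ 0 →
      ζ i + D.b (F.t i) + D.d (F.t i) / (4 * ζ i) ≠ 0 →
      x₁ ^ 6 = algebraMap K₁ K (ζ i + D.b (F.t i) + D.d (F.t i) / (4 * ζ i)) →
      x ^ 6 = x₁ ^ 6 →
      OnX (D.b ((bc F hK).t i)) (D.d ((bc F hK).t i)) (algebraMap K₁ K (ζ i)) x := by
    intro ζ i x x₁ h0 h1 h2 h3
    refine ⟨(_root_.map_ne_zero _).2 h0, hne _ _ h1 (h3.trans h2), ?_⟩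
    rw [h3, h2]
    show _ = algebraMap K₁ K (ζ i) + D.b (algebraMap K₁ K (F.t i)) +
      D.d (algebraMap K₁ K (F.t i)) / (4 * algebraMap K₁ K (ζ i))
    rw [b_base, d_base, map_add, map_add, map_div₀, map_mul, map_ofNat]
  refine ⟨K, inferInstance, inferInstance, ⟨{ bc F hK with
    d := d.map (Ed.map (algebraMap K₁ K))
    d' := d'.map (Ed.map (algebraMap K₁ K))
    v := v
    v' := v'
    hd := ?_
    hd' := ?_
    fd := fineC_map _ hf
    fd' := fineC_map _ hf'
    vd := ?_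
    vd' := ?_
    hv := ?_
    hv' := ?_
    pv := ?_
    pv' := hvp' }⟩⟩
  · show (d.map (Ed.map (algebraMap K₁ K))).map Ed.lab = (bc F hK).lab
    rw [hz, hmapd, List.map_ofFn, hlab]
    rfl
  · show (d'.map (Ed.map (algebraMap K₁ K))).map Ed.lab = (bc F hK).lab
    rw [hz', hmapd, List.map_ofFn, hlab]
    rfl
  · show vec (d.map (Ed.map (algebraMap K₁ K))) = (bc F hK).Vt (algebraMap K₁ K F.μ)
    rw [vec_map, hv, bc_Vt]
  · show vec (d'.map (Ed.map (algebraMap K₁ K))) =
      (bc F hK).Vt ((bc F hK).ρ / algebraMap K₁ K F.μ)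
    rw [vec_map, hv', bc_rho, ← map_div₀, bc_Vt]
  · intro i
    show OnX (D.b ((bc F hK).t i)) (D.d ((bc F hK).t i))
      (zof (d.map (Ed.map (algebraMap K₁ K))) i) (v i)
    rw [hz, hmapd, zof_ofFn]
    exact hOn z i _ _ (hu1 i).1 (hu1 i).2 (hy1 i) (hv6 i)
  · intro i
    show OnX (D.b ((bc F hK).t i)) (D.d ((bc F hK).t i))
      (zof (d'.map (Ed.map (algebraMap K₁ K))) i) (v' i)
    rw [hz', hmapd, zof_ofFn]
    exact hOn z' i _ _ (hu1' i).1 (hu1' i).2 (hy2 i) (hv6' i)
  · show ∏ i, v i = (bc F hK).ρ / algebraMap K₁ K F.μ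
    rw [hvp, bc_rho, map_div₀]

end Pool.Agent.Helper83.VN

end CX
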