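import Mathlib
import Pool.Agent.Helper40.CX.H83VN.Mv2
import Pool.Agent.Helper40.CX.H83KV.App
import Pool.Agent.Helper40.CX.Good2

namespace CX

/-!
# Block VN-MV3: all points, `j` not constant

By `pt_or`, `Odd.zero_of_neg` and `odd_sing` we may assume that all components are points
`D.pt (T i) (x i) (y i)` with `y i ≠ 0` (and `d (T i) ≠ 0`). Let `S` be general (`Gn D S`), and
`t i = T i + X (S i - T i)`. Over a function field `K ∋ X` with square roots `Y i` of
`x i ^ 3 - 3 a (t i) x i - 2 b (t i)` (`VF.exists_poly_roots`, `m = 2`), whose values at a fixed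
place `w₀` over `X = 0` are `y i` (change the sign of `Y i` if necessary), consider the point
`fun i => D.pt (t i) (x i) (Y i)`. At almost all places the values of the `t i` are general
(`Gn` is given by finitely many polynomial conditions in the value of `X`, satisfied at `X = 1`;
`fin_pl`), and `Ψ` vanishes there by `ps_zero` (`eval_pt`; the `Y i` are regular where `X` is).
So it vanishes at `w₀` by `KV.app`.
-/

set_option linter.unusedSectionVars false

namespace Pool.Agent.Helper83.VN

open VC VF Function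
open Pool.Agent.Helper51.EW Pool.Agent.Helper51.VN

universe u

variable {k : Type u} [Field k] [IsAlgClosed k] [Good k] {W : Wei k} {n : ℕ}

/-- The parameter of a line. -/
private noncomputable def mv3_l (T S : Fin n → k) (i : Fin n) : Polynomial k :=
  Polynomial.C (T i) + Polynomial.X * Polynomial.C (S i - T i)

private lemma mv3_l_eval (T S : Fin n → k) (i : Fin n) (x : k) :
    (mv3_l T S i).eval x = T i + x * (S i - T i) := by
  unfold mv3_l
  simp

/-- The points of a line which are not general. -/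
private lemma mv3_fin (D : Cor W) (T : Fin n → k) {S : Fin n → k} (hS : Gn D S) :
    {x : k | ¬ Gn D (fun i => T i + x * (S i - T i))}.Finite := by
  classical
  have hl1 : ∀ i, (mv3_l T S i).eval 1 = S i := by
    intro i
    rw [mv3_l_eval]
    ring
  have hae : ∀ (p : Polynomial k) (x : k), Polynomial.aeval x p = p.eval x := fun p x => by
    rw [Polynomial.coe_aeval_eq_eval]
  obtain ⟨pa, hpa⟩ : ∃ pa : Fin n → Polynomial k, pa = fun i => D.al.comp (mv3_l T S i) :=
    ⟨_, rfl⟩
  obtain ⟨pb, hpb⟩ : ∃ pb : Fin n → Polynomial k, pb = fun i => D.be.comp (mv3_l T S i) :=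
    ⟨_, rfl⟩
  obtain ⟨pd, hpd⟩ : ∃ pd : Fin n → Polynomial k, pd = fun i => pb i ^ 2 - pa i ^ 3 := ⟨_, rfl⟩
  have ha : ∀ i x, (pa i).eval x = D.a (T i + x * (S i - T i)) := by
    intro i x
    rw [hpa, Polynomial.eval_comp, mv3_l_eval]
    unfold Cor.a
    rw [hae]
  have hb : ∀ i x, (pb i).eval x = D.b (T i + x * (S i - T i)) := by
    intro i x
    rw [hpb, Polynomial.eval_comp, mv3_l_eval]
    unfold Cor.b
    rw [hae]
  have hd : ∀ i x, (pd i).eval x = D.d (T i + x * (S i - T i)) := by
    intro i x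
    rw [hpd]
    simp only [Polynomial.eval_sub, Polynomial.eval_pow, ha, hb]
    rfl
  obtain ⟨P, hP⟩ : ∃ P : Polynomial k, P = (∏ i, (pa i * pb i * pd i)) *
      ∏ i, ∏ j, (if i = j then 1 else (pb i ^ 2 * pd j - pb j ^ 2 * pd i)) := ⟨_, rfl⟩
  have hiff : ∀ x, P.eval x ≠ 0 ↔ Gn D (fun i => T i + x * (S i - T i)) := by
    intro x
    have h1 : P.eval x = (∏ i, ((pa i).eval x * (pb i).eval x * (pd i).eval x)) *
        ∏ i, ∏ j, (if i = j then 1 else
          ((pb i).eval x ^ 2 * (pd j).eval x - (pb j).eval x ^ 2 * (pd i).eval x)) := by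
      rw [hP, Polynomial.eval_mul, Polynomial.eval_prod, Polynomial.eval_prod]
      congr 1
      · apply Finset.prod_congr rfl
        intro i _
        simp only [Polynomial.eval_mul]
      · apply Finset.prod_congr rfl
        intro i _
        rw [Polynomial.eval_prod]
        apply Finset.prod_congr rfl
        intro j _
        split_ifs
        · rw [Polynomial.eval_one]
        · simp only [Polynomial.eval_sub, Polynomial.eval_mul, Polynomial.eval_pow]
    rw [h1, mul_ne_zero_iff, Finset.prod_ne_zero_iff, Finset.prod_ne_zero_iff]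
    simp only [ha, hb, hd]
    constructor
    · rintro ⟨h2, h3⟩
      refine ⟨fun i => ?_, fun i => ?_, fun i => ?_, fun i j hij => ?_⟩
      · exact left_ne_zero_of_mul (left_ne_zero_of_mul (h2 i (Finset.mem_univ i)))
      · exact right_ne_zero_of_mul (left_ne_zero_of_mul (h2 i (Finset.mem_univ i)))
      · exact right_ne_zero_of_mul (h2 i (Finset.mem_univ i))
      · have h4 := h3 i (Finset.mem_univ i)
        rw [Finset.prod_ne_zero_iff] at h4
        have h5 := h4 j (Finset.mem_univ j)
        rw [if_neg hij] at h5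
        exact sub_ne_zero.mp h5
    · intro h2
      refine ⟨fun i _ => mul_ne_zero (mul_ne_zero (h2.ha i) (h2.hb i)) (h2.hd i), fun i _ => ?_⟩
      rw [Finset.prod_ne_zero_iff]
      intro j _
      split_ifs with hij
      · exact one_ne_zero
      · exact sub_ne_zero.mpr (h2.hj i j hij)
  have hP0 : P ≠ 0 := by
    rintro h0
    have h1 : P.eval 1 ≠ 0 := by
      rw [hiff]
      have : (fun i => T i + 1 * (S i - T i)) = S := by
        funext i
        ring
      rw [this]
      exact hS
    apply h1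
    rw [h0, Polynomial.eval_zero]
  apply (P.roots.toFinset.finite_toSet).subset
  intro x hx
  rw [Set.mem_ofPred_eq, ← hiff, not_not] at hx
  rw [Finset.mem_coe, Multiset.mem_toFinset, Polynomial.mem_roots hP0]
  exact hx

theorem odd_zero_gen (D : Cor W) (h1 : 1 ≤ W.N) (hn : W.N ≤ n)
    (hj : ∀ c c' : k, (c ≠ 0 ∨ c' ≠ 0) →
      Polynomial.C c * D.be ^ 2 ≠ Polynomial.C c' * D.al ^ 3)
    {Ψ : (W.surface.pow n).Pt → ℂ} (h : Odd W n Ψ) (p : (W.surface.pow n).Pt) : Ψ p = 0 := by
  classical
  by_contra hne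
  have hp : ∀ i, ∃ t x y : k, y ≠ 0 ∧ OnE (D.a t) (D.b t) x y ∧ p i = D.pt t x y := by
    intro i
    rcases pt_or D (p i) with h2 | ⟨c, h2, h3⟩ | ⟨t, x, y, -, h3, h4, h5⟩
    · exact absurd (h.zero_of_neg h2) hne
    · exact absurd (odd_sing h h2 h3) hne
    · exact ⟨t, x, y, h3, h4, h5⟩
  choose T x y hy0 hE hpt using hp
  obtain ⟨S, hS⟩ := exists_gn D hj n
  have hfin := mv3_fin D T hS
  -- the function field
  obtain ⟨K, _, _, τ, Y, hK, hτ, hY⟩ := exists_poly_roots (k := k) (m := 2) two_ne_zero
    (fun i => Polynomial.C (x i ^ 3) - Polynomial.C (3 * x i) * D.al.comp (mv3_l T S i) -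
      2 * D.be.comp (mv3_l T S i))
  obtain ⟨t, ht⟩ : ∃ t : Fin n → K, t = fun i =>
    algebraMap k K (T i) + τ * algebraMap k K (S i - T i) := ⟨_, rfl⟩
  have hlt : ∀ i, Polynomial.aeval τ (mv3_l T S i) = t i := by
    intro i
    rw [ht]
    unfold mv3_l
    simp
  have hYE : ∀ i, OnE (D.a (t i)) (D.b (t i)) (algebraMap k K (x i)) (Y i) := by
    intro i
    unfold OnE
    rw [hY i]
    simp only [map_sub, map_mul, Polynomial.aeval_C, Polynomial.aeval_comp, hlt, map_pow,
      map_ofNat]
    unfold Cor.a Cor.b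
    ring
  obtain ⟨w₀, hw₀⟩ := exists_place hK hτ
  have hτ0 : IsRes w₀ τ 0 := isRes_zero_iff.mpr hw₀
  have htv : ∀ (w : Place k K) (c : k), IsRes w τ c → ∀ i,
      IsRes w (t i) (T i + c * (S i - T i)) := by
    intro w c hc i
    rw [ht]
    exact (isRes_const _).add (hc.mul (isRes_const _))
  have hYv : ∀ (w : Place k K) (c : k), IsRes w τ c → ∀ i, ∃ e, IsRes w (Y i) e ∧
      OnE (D.a (T i + c * (S i - T i))) (D.b (T i + c * (S i - T i))) (x i) e := by
    intro w c hc i
    have h2 : IsRes w (Y i ^ 2) (x i ^ 3 - 3 * D.a (T i + c * (S i - T i)) * x i -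
        2 * D.b (T i + c * (S i - T i))) := by
      rw [hYE i]
      have e3 : IsRes w (3 : K) (3 : k) := by
        have := isRes_const (v := w) (3 : k)
        rwa [map_ofNat] at this
      have e2 : IsRes w (2 : K) (2 : k) := by
        have := isRes_const (v := w) (2 : k)
        rwa [map_ofNat] at this
      exact (((isRes_const _).pow 3).sub ((e3.mul (isRes_a D (htv w c hc i))).mul
        (isRes_const _))).sub (e2.mul (isRes_b D (htv w c hc i)))
    obtain ⟨e, he, he'⟩ := exists_res_of_pow hK two_ne_zero h2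
    exact ⟨e, he, he'⟩
  -- the signs
  have hsg : ∀ i, ∃ ε : k, ε ^ 2 = 1 ∧ IsRes w₀ (algebraMap k K ε * Y i) (y i) := by
    intro i
    obtain ⟨e, he, he'⟩ := hYv w₀ 0 hτ0 i
    rw [zero_mul, add_zero] at he'
    have h2 : e ^ 2 = y i ^ 2 := by
      have := hE i
      unfold OnE at this he'
      rw [he', this]
    rcases sq_eq_sq_iff_eq_or_eq_neg.mp h2 with h3 | h3
    · refine ⟨1, one_pow 2, ?_⟩
      rw [map_one, one_mul, ← h3]
      exact he
    · refine ⟨-1, by ring, ?_⟩
      rw [map_neg, map_one, neg_one_mul]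
      have := he.neg
      rwa [h3, neg_neg] at this
  choose ε hε hεY using hsg
  obtain ⟨c, hc⟩ : ∃ c : (W.surface.pow n).Mor K, c = fun i =>
      D.pt (t i) (algebraMap k K (x i)) (algebraMap k K (ε i) * Y i) := ⟨_, rfl⟩
  have hcE : ∀ i, OnE (D.a (t i)) (D.b (t i)) (algebraMap k K (x i))
      (algebraMap k K (ε i) * Y i) := by
    intro i
    have := hYE i
    unfold OnE at this ⊢
    rw [mul_pow, ← map_pow, hε, map_one, one_mul, this]
  have hval : ∀ (w : Place k K) (c₀ : k), IsRes w τ c₀ → ∀ e : Fin n → k,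
      (∀ i, IsRes w (algebraMap k K (ε i) * Y i) (e i)) →
      (W.surface.pow n).eval hK c w = fun i => D.pt (T i + c₀ * (S i - T i)) (x i) (e i) := by
    intro w c₀ hc₀ e he
    funext i
    rw [hc]
    exact eval_pt D hK w (hcE i) (htv w c₀ hc₀ i) (isRes_const _) (he i)
  have key := Helper83.KV.app h.kills hK c (fin_pl hK hτ hfin) (by
    intro w hw
    rw [Set.mem_ofPred_eq, not_or, not_not, not_exists] at hw
    obtain ⟨hw1, hw2⟩ := hw
    obtain ⟨c₀, hc₀⟩ := exists_res hK hw1
    have hG : Gn D (fun i => T i + c₀ * (S i - T i)) := by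
      by_contra h0
      exact hw2 c₀ ⟨h0, hc₀⟩
    choose e he he' using hYv w c₀ hc₀
    rw [hval w c₀ hc₀ (fun i => ε i * e i) (fun i => (isRes_const _).mul (he i))]
    refine ps_zero h1 hn h hG x (fun i => ε i * e i) (fun i => ?_)
    have := he' i
    unfold OnE at this ⊢
    rw [mul_pow, hε, one_mul, this]) w₀
  rw [hval w₀ 0 hτ0 y hεY] at key
  apply hne
  rw [← key]
  congr 1
  funext i
  rw [hpt i, zero_mul, add_zero]

end Pool.Agent.Helper83.VN

end CX
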